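import Pool.Agent.R217.HS.Base

set_option autoImplicit false
set_option linter.unusedSectionVars false

open MeasureTheory Filter Topology
open scoped ContDiff ENNReal NNReal RealInnerProductSpace

namespace Pool.Agent.R217.HS

open Pool.Agent.R217.BN (E cexp sobS)

variable {n : ℕ}

/-- The sharp constant of the embedding `H¹ → L^q`. -/
noncomputable def subC (n : ℕ) (q : ℝ) : ℝ :=
  sInf {r | ∃ u : E n → ℝ, ContDiff ℝ ∞ u ∧ HasCompactSupport u ∧ u ≠ 0 ∧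
    r = (∫ x, (‖gradient u x‖ ^ 2 + u x ^ 2)) / (∫ x, |u x| ^ q) ^ (2 / q)}

lemma Tst.int_rpow {φ : E n → ℝ} (h : Tst φ) {r : ℝ} (hr : 0 < r) :
    Integrable (fun x => |φ x| ^ r) := by
  apply Continuous.integrable_of_hasCompactSupport
  · exact h.1.continuous.abs.rpow_const fun x => Or.inr hr.le
  · exact (h.2.comp_left (g := fun t => |t| ^ r) (by simp [Real.zero_rpow hr.ne']))

lemma Tst.int_sq {φ : E n → ℝ} (h : Tst φ) : Integrable (fun x => φ x ^ 2) := by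
  have := integrable_sq (h.memLp 2)
  simpa only [Real.norm_eq_abs, sq_abs] using this

lemma Tst.int_grad {φ : E n → ℝ} (h : Tst φ) : Integrable (fun x => ‖gradient φ x‖ ^ 2) :=
  integrable_sq (h.memLp_grad 2)

lemma IsH1.int_sq {u : E n → ℝ} {G : E n → E n} (h : IsH1 u G) :
    Integrable (fun x => u x ^ 2) := by
  have := integrable_sq h.mu
  simpa only [Real.norm_eq_abs, sq_abs] using this

lemma IsH1.int_grad {u : E n → ℝ} {G : E n → E n} (h : IsH1 u G) :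
    Integrable (fun x => ‖G x‖ ^ 2) := integrable_sq h.mG

lemma Tst.rpow_pos {φ : E n → ℝ} (h : Tst φ) (h0 : φ ≠ 0) {r : ℝ} (hr : 0 < r) :
    0 < ∫ x, |φ x| ^ r := by
  rw [integral_pos_iff_support_of_nonneg (fun x => by positivity) (h.int_rpow hr)]
  have hc : Continuous fun x => |φ x| ^ r := h.1.continuous.abs.rpow_const fun x => Or.inr hr.le
  apply hc.isOpen_support.measure_pos volume
  obtain ⟨x, hx⟩ := Function.ne_iff.1 h0
  refine ⟨x, ?_⟩
  simp only [Function.mem_support]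
  have : 0 < |φ x| := abs_pos.2 hx
  positivity

lemma two_lt_cexp (hn : 3 ≤ n) : 2 < cexp n := by
  have : (3:ℝ) ≤ n := by exact_mod_cast hn
  unfold cexp
  rw [lt_div_iff₀ (by linarith)]
  linarith

/-- The Sobolev inequality for test functions. -/
lemma Tst.sobolev (hn : 3 ≤ n) {φ : E n → ℝ} (h : Tst φ) :
    ∫ x, |φ x| ^ cexp n ≤ ((∫ x, ‖gradient φ x‖ ^ 2) / sobS n) ^ (cexp n / 2) := by
  have hc := BN.cexp_pos hn
  have hS := BN.sobS_pos hn
  by_cases h0 : φ = 0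
  · subst h0
    simp only [Pi.zero_apply, abs_zero]
    rw [Real.zero_rpow hc.ne', integral_zero]
    apply Real.rpow_nonneg
    exact div_nonneg (integral_nonneg fun x => by positivity) hS.le
  have hP := h.rpow_pos h0 hc
  have h1 : sobS n ≤ (∫ x, ‖gradient φ x‖ ^ 2) / (∫ x, |φ x| ^ cexp n) ^ (2 / cexp n) := by
    apply csInf_le
    · refine ⟨0, ?_⟩
      rintro r ⟨u, -, -, -, rfl⟩
      exact div_nonneg (integral_nonneg fun x => by positivity)
        (Real.rpow_nonneg (integral_nonneg fun x => by positivity) _)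
    · exact ⟨φ, h.1, h.2, h0, rfl⟩
  rw [le_div_iff₀ (by positivity)] at h1
  have h2 : (∫ x, |φ x| ^ cexp n) ^ (2 / cexp n) ≤ (∫ x, ‖gradient φ x‖ ^ 2) / sobS n := by
    rw [le_div_iff₀ hS]; linarith
  have h3 := Real.rpow_le_rpow (by positivity) h2 (show 0 ≤ cexp n / 2 by positivity)
  rwa [← Real.rpow_mul hP.le, show 2 / cexp n * (cexp n / 2) = 1 by field_simp, Real.rpow_one] at h3

lemma IsH1.sobolev' (hn : 3 ≤ n) {u : E n → ℝ} {G : E n → E n} (h : IsH1 u G) :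
    Integrable (fun x => |u x| ^ cexp n) ∧
      ∫ x, |u x| ^ cexp n ≤ ((∫ x, ‖G x‖ ^ 2) / sobS n) ^ (cexp n / 2) := by
  have hc := BN.cexp_pos hn
  refine h.transfer hc (Φ := fun a _ => (a / sobS n) ^ (cexp n / 2)) ?_ fun φ hφ => hφ.sobolev hn
  have : Continuous fun p : ℝ × ℝ => (p.1 / sobS n) ^ (cexp n / 2) := by
    apply Continuous.rpow_const
    · fun_prop
    · intro p; right; positivity
  exact this

/-- The Sobolev inequality in `H¹`. -/
lemma IsH1.sobolev (hn : 3 ≤ n) {u : E n → ℝ} {G : E n → E n} (h : IsH1 u G) :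
    sobS n * (∫ x, |u x| ^ cexp n) ^ (2 / cexp n) ≤ ∫ x, ‖G x‖ ^ 2 := by
  have hc := BN.cexp_pos hn
  have hS := BN.sobS_pos hn
  have h1 := (h.sobolev' hn).2
  have hA : 0 ≤ ∫ x, ‖G x‖ ^ 2 := integral_nonneg fun x => by positivity
  have h2 := Real.rpow_le_rpow (integral_nonneg fun x => by positivity) h1
    (show 0 ≤ 2 / cexp n by positivity)
  rw [← Real.rpow_mul (by positivity), show cexp n / 2 * (2 / cexp n) = 1 by field_simp,
    Real.rpow_one, le_div_iff₀ hS] at h2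
  linarith

lemma rpow_le_sum {t q r : ℝ} (ht : 0 ≤ t) (hq : 2 ≤ q) (hqr : q ≤ r) :
    t ^ q ≤ t ^ 2 + t ^ r := by
  rcases le_total t 1 with h | h
  · have h1 : t ^ q ≤ t ^ (2:ℝ) := Real.rpow_le_rpow_of_exponent_ge' ht h (by norm_num) hq
    rw [Real.rpow_two] at h1
    have : 0 ≤ t ^ r := by positivity
    linarith
  · have h1 : t ^ q ≤ t ^ r := Real.rpow_le_rpow_of_exponent_le h hqr
    nlinarith [sq_nonneg t]

/-- A crude bound with normalised norm, then homogeneity. -/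
lemma Tst.sub_bound (hn : 3 ≤ n) {q : ℝ} (hq : 2 ≤ q) (hq' : q ≤ cexp n) {φ : E n → ℝ}
    (h : Tst φ) :
    ∫ x, |φ x| ^ q ≤ (1 + (1 / sobS n) ^ (cexp n / 2)) *
      (∫ x, (‖gradient φ x‖ ^ 2 + φ x ^ 2)) ^ (q / 2) := by
  have hc := BN.cexp_pos hn
  have hS := BN.sobS_pos hn
  have hq0 : 0 < q := by linarith
  by_cases h0 : φ = 0
  · subst h0
    simp only [Pi.zero_apply, abs_zero]
    rw [Real.zero_rpow hq0.ne', integral_zero]
    apply mul_nonneg (by positivity)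
    exact Real.rpow_nonneg (integral_nonneg fun x => by positivity) _
  obtain ⟨D, hD⟩ : ∃ D, D = ∫ x, (‖gradient φ x‖ ^ 2 + φ x ^ 2) := ⟨_, rfl⟩
  rw [← hD]
  have hD2 : D = (∫ x, ‖gradient φ x‖ ^ 2) + ∫ x, φ x ^ 2 := by
    rw [hD, integral_add h.int_grad h.int_sq]
  have hpos : 0 < ∫ x, φ x ^ 2 := by
    have := h.rpow_pos h0 (r := 2) (by norm_num)
    simpa only [Real.rpow_two, sq_abs] using this
  have hg0 : 0 ≤ ∫ x, ‖gradient φ x‖ ^ 2 := integral_nonneg fun x => by positivity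
  have hD0 : 0 < D := by linarith
  -- normalise
  obtain ⟨s, hs⟩ : ∃ s, s = (Real.sqrt D)⁻¹ := ⟨_, rfl⟩
  have hs0 : 0 < s := by rw [hs]; positivity
  have hs2 : s ^ 2 * D = 1 := by
    rw [hs, inv_pow, Real.sq_sqrt hD0.le]; field_simp
  have hT := h.smul s
  have e1 : ∀ r : ℝ, ∫ x, |s * φ x| ^ r = s ^ r * ∫ x, |φ x| ^ r := by
    intro r
    rw [← integral_const_mul]
    congr 1; funext x
    rw [abs_mul, abs_of_pos hs0, Real.mul_rpow hs0.le (abs_nonneg _)]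
  have e2 : ∫ x, ‖gradient (fun x => s * φ x) x‖ ^ 2 = s ^ 2 * ∫ x, ‖gradient φ x‖ ^ 2 := by
    rw [← integral_const_mul]
    congr 1; funext x
    rw [gradient_smul s (h.diff x), norm_smul, mul_pow, Real.norm_eq_abs, sq_abs]
  have e3 : ∫ x, (s * φ x) ^ 2 = s ^ 2 * ∫ x, φ x ^ 2 := by
    rw [← integral_const_mul]
    congr 1; funext x; ring
  have hsob := hT.sobolev hn
  have hle1 : (∫ x, ‖gradient (fun x => s * φ x) x‖ ^ 2) ≤ 1 := by
    rw [e2]; nlinarith [sq_nonneg s]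
  have hle2 : (∫ x, (s * φ x) ^ 2) ≤ 1 := by
    rw [e3]; nlinarith [sq_nonneg s]
  have k1 : ∫ x, |s * φ x| ^ q ≤ (∫ x, (s * φ x) ^ 2) + ∫ x, |s * φ x| ^ cexp n := by
    rw [← integral_add hT.int_sq (hT.int_rpow hc)]
    apply integral_mono (hT.int_rpow hq0) (hT.int_sq.add (hT.int_rpow hc))
    intro x
    have := rpow_le_sum (abs_nonneg (s * φ x)) hq hq'
    rw [sq_abs] at this
    exact this
  have k2 : ((∫ x, ‖gradient (fun x => s * φ x) x‖ ^ 2) / sobS n) ^ (cexp n / 2) ≤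
      (1 / sobS n) ^ (cexp n / 2) := by
    apply Real.rpow_le_rpow
    · exact div_nonneg (integral_nonneg fun x => by positivity) hS.le
    · gcongr
    · positivity
  have k3 : s ^ q * ∫ x, |φ x| ^ q ≤ 1 + (1 / sobS n) ^ (cexp n / 2) := by
    rw [← e1]; linarith
  have k4 : s ^ q * D ^ (q / 2) = 1 := by
    have : D = (s⁻¹) ^ (2:ℝ) := by
      rw [Real.rpow_two, inv_pow]; field_simp; linarith
    rw [this, ← Real.rpow_mul (by positivity), Real.inv_rpow hs0.le,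
      show (2:ℝ) * (q / 2) = q by ring]
    exact mul_inv_cancel₀ (by positivity)
  have k5 : 0 < D ^ (q / 2) := by positivity
  have k6 : 0 < s ^ q := by positivity
  calc ∫ x, |φ x| ^ q = (s ^ q * ∫ x, |φ x| ^ q) * D ^ (q / 2) := by
        rw [mul_right_comm, k4, one_mul]
    _ ≤ (1 + (1 / sobS n) ^ (cexp n / 2)) * D ^ (q / 2) := by gcongr

lemma subC_pos (hn : 3 ≤ n) {q : ℝ} (hq : 2 ≤ q) (hq' : q ≤ cexp n) : 0 < subC n q := by
  have hc := BN.cexp_pos hn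
  have hS := BN.sobS_pos hn
  have hq0 : 0 < q := by linarith
  obtain ⟨K, hK⟩ : ∃ K, K = 1 + (1 / sobS n) ^ (cexp n / 2) := ⟨_, rfl⟩
  have hK0 : 0 < K := by rw [hK]; positivity
  have hKp : 0 < (K ^ (2 / q))⁻¹ := by positivity
  refine lt_of_lt_of_le hKp ?_
  let η : ContDiffBump (0 : E n) := ⟨1, 2, one_pos, one_lt_two⟩
  have hηne : (η : E n → ℝ) ≠ 0 := by
    intro h
    have h1 := congrFun h 0
    rw [η.one_of_mem_closedBall (by simp [η])] at h1
    simp at h1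
  apply le_csInf
  · exact ⟨_, η, η.contDiff, η.hasCompactSupport, hηne, rfl⟩
  · rintro r ⟨u, hu, hc', hne, rfl⟩
    have hT : Tst u := ⟨hu, hc'⟩
    have h1 := hT.sub_bound hn hq hq'
    rw [← hK] at h1
    have hP := hT.rpow_pos hne hq0
    have hD0 : 0 ≤ ∫ x, (‖gradient u x‖ ^ 2 + u x ^ 2) := integral_nonneg fun x => by positivity
    have h2 := Real.rpow_le_rpow hP.le h1 (show 0 ≤ 2 / q by positivity)
    rw [Real.mul_rpow hK0.le (by positivity), ← Real.rpow_mul hD0,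
      show q / 2 * (2 / q) = 1 by field_simp, Real.rpow_one] at h2
    rw [le_div_iff₀ (by positivity)]
    rw [inv_mul_le_iff₀ (by positivity)]
    exact h2

lemma gradient_dil {φ : E n → ℝ} (h : Differentiable ℝ φ) (t : ℝ) (x : E n) :
    gradient (fun x => φ (t • x)) x = t • gradient φ (t • x) := by
  have h1 : HasFDerivAt (fun x : E n => t • x) (t • ContinuousLinearMap.id ℝ (E n)) x :=
    (ContinuousLinearMap.id ℝ (E n)).hasFDerivAt.const_smul t
  have h2 := (h (t • x)).hasFDerivAt.comp x h1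
  have h3 : fderiv ℝ (fun x => φ (t • x)) x = t • fderiv ℝ φ (t • x) := by
    have h4 : HasFDerivAt (fun x => φ (t • x)) _ x := h2
    rw [h4.fderiv]
    ext v
    simp
  unfold gradient
  rw [h3]
  simp

lemma Tst.dil {φ : E n → ℝ} (h : Tst φ) {t : ℝ} (ht : 0 < t) : Tst (fun x => φ (t • x)) := by
  let e : E n ≃ₜ E n := Homeomorph.smulOfNeZero t ht.ne'
  exact ⟨h.1.comp (contDiff_const_smul t), h.2.comp_homeomorph e⟩

lemma int_dil (f : E n → ℝ) {t : ℝ} (ht : 0 < t) :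
    ∫ x, f (t • x) = (t ^ n)⁻¹ * ∫ x, f x := by
  have := Measure.integral_comp_smul_of_nonneg (volume : Measure (E n)) f t (hR := ht.le)
  simpa using this

lemma Tst.int_grad_dil {φ : E n → ℝ} (h : Tst φ) {t : ℝ} (ht : 0 < t) :
    ∫ x, ‖gradient (fun x => φ (t • x)) x‖ ^ 2 = t ^ 2 * (t ^ n)⁻¹ * ∫ x, ‖gradient φ x‖ ^ 2 := by
  have e : ∀ x, ‖gradient (fun x => φ (t • x)) x‖ ^ 2 =
      t ^ 2 * (fun y => ‖gradient φ y‖ ^ 2) (t • x) := by
    intro x
    rw [gradient_dil h.diff, norm_smul, mul_pow, Real.norm_eq_abs, sq_abs]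
  simp_rw [e]
  rw [integral_const_mul, int_dil (fun y => ‖gradient φ y‖ ^ 2) ht]
  ring

/-- The exponent of `μ` in the scaled inequality. -/
noncomputable def kap (n : ℕ) (q : ℝ) : ℝ := 1 - (n:ℝ) / 2 * ((q - 2) / q)

lemma Tst.sub_scaled (hn : 3 ≤ n) {q : ℝ} (hq : 2 ≤ q) (hq' : q ≤ cexp n) {μ : ℝ} (hμ : 0 < μ)
    {φ : E n → ℝ} (h : Tst φ) :
    ∫ x, |φ x| ^ q ≤ (((∫ x, ‖gradient φ x‖ ^ 2) + μ * ∫ x, φ x ^ 2) /
      (subC n q * μ ^ kap n q)) ^ (q / 2) := by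
  have hc := BN.cexp_pos hn
  have hq0 : 0 < q := by linarith
  have hC := subC_pos hn hq hq'
  have hg0 : 0 ≤ ∫ x, ‖gradient φ x‖ ^ 2 := integral_nonneg fun x => by positivity
  have hs0 : 0 ≤ ∫ x, φ x ^ 2 := integral_nonneg fun x => by positivity
  have hμk : 0 < μ ^ kap n q := by positivity
  by_cases h0 : φ = 0
  · subst h0
    simp only [Pi.zero_apply, abs_zero]
    rw [Real.zero_rpow hq0.ne', integral_zero]
    apply Real.rpow_nonneg
    apply div_nonneg _ (by positivity)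
    apply add_nonneg (integral_nonneg fun x => by positivity)
    apply mul_nonneg hμ.le (integral_nonneg fun x => by positivity)
  obtain ⟨t, ht⟩ : ∃ t, t = (Real.sqrt μ)⁻¹ := ⟨_, rfl⟩
  have ht0 : 0 < t := by rw [ht]; positivity
  have htm : t ^ 2 = μ⁻¹ := by rw [ht, inv_pow, Real.sq_sqrt hμ.le]
  have hT := h.dil ht0
  have hne : (fun x => φ (t • x)) ≠ 0 := by
    intro h1
    apply h0
    funext x
    have := congrFun h1 (t⁻¹ • x)
    simpa [smul_smul, mul_inv_cancel₀ ht0.ne'] using this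
  have h1 : subC n q ≤ (∫ x, (‖gradient (fun x => φ (t • x)) x‖ ^ 2 + (fun x => φ (t • x)) x ^ 2)) /
      (∫ x, |(fun x => φ (t • x)) x| ^ q) ^ (2 / q) := by
    apply csInf_le
    · refine ⟨0, ?_⟩
      rintro r ⟨u, -, -, -, rfl⟩
      exact div_nonneg (integral_nonneg fun x => by positivity)
        (Real.rpow_nonneg (integral_nonneg fun x => by positivity) _)
    · exact ⟨_, hT.1, hT.2, hne, rfl⟩
  have e1 : ∫ x, (‖gradient (fun x => φ (t • x)) x‖ ^ 2 + (fun x => φ (t • x)) x ^ 2) =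
      (t ^ n)⁻¹ * (t ^ 2 * (∫ x, ‖gradient φ x‖ ^ 2) + ∫ x, φ x ^ 2) := by
    rw [integral_add hT.int_grad hT.int_sq, h.int_grad_dil ht0, int_dil (fun y => φ y ^ 2) ht0]
    ring
  have e2 : ∫ x, |(fun x => φ (t • x)) x| ^ q = (t ^ n)⁻¹ * ∫ x, |φ x| ^ q :=
    int_dil (fun y => |φ y| ^ q) ht0
  have hP := h.rpow_pos h0 hq0
  rw [e1, e2, le_div_iff₀ (by positivity), Real.mul_rpow (by positivity) hP.le] at h1
  -- rewrite in terms of μ
  have hPq : 0 < (∫ x, |φ x| ^ q) ^ (2 / q) := by positivity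
  have e3 : (t ^ n)⁻¹ = μ ^ ((n:ℝ) / 2) := by
    rw [ht, inv_pow, inv_inv, Real.sqrt_eq_rpow, ← Real.rpow_natCast, ← Real.rpow_mul hμ.le]
    congr 1; ring
  rw [e3, htm] at h1
  have e4 : (μ ^ ((n:ℝ) / 2)) ^ (2 / q) = μ ^ ((n:ℝ) / q) := by
    rw [← Real.rpow_mul hμ.le]; congr 1; field_simp
  rw [e4] at h1
  have hm1 : 0 < μ ^ ((n:ℝ) / 2) := by positivity
  have e5 : μ ^ kap n q = μ * μ ^ ((n:ℝ) / q) / μ ^ ((n:ℝ) / 2) := by
    rw [kap, show 1 - (n:ℝ) / 2 * ((q - 2) / q) = 1 + (n:ℝ) / q - (n:ℝ) / 2 by field_simp; ring,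
      Real.rpow_sub hμ, Real.rpow_add hμ, Real.rpow_one]
  have h2 : subC n q * μ ^ kap n q * (∫ x, |φ x| ^ q) ^ (2 / q) ≤
      (∫ x, ‖gradient φ x‖ ^ 2) + μ * ∫ x, φ x ^ 2 := by
    have h3 : μ * (μ ^ ((n:ℝ) / 2) * (μ⁻¹ * (∫ x, ‖gradient φ x‖ ^ 2) + ∫ x, φ x ^ 2)) =
        μ ^ ((n:ℝ) / 2) * ((∫ x, ‖gradient φ x‖ ^ 2) + μ * ∫ x, φ x ^ 2) := by
      field_simp
    have h4 := mul_le_mul_of_nonneg_left h1 hμ.le
    rw [h3] at h4
    rw [e5]
    have h5 : subC n q * (μ * μ ^ ((n:ℝ) / q) / μ ^ ((n:ℝ) / 2)) * (∫ x, |φ x| ^ q) ^ (2 / q) =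
        (μ * (subC n q * (μ ^ ((n:ℝ) / q) * (∫ x, |φ x| ^ q) ^ (2 / q)))) / μ ^ ((n:ℝ) / 2) := by
      ring
    rw [h5, div_le_iff₀ hm1]
    linarith
  have h6 : (∫ x, |φ x| ^ q) ^ (2 / q) ≤
      ((∫ x, ‖gradient φ x‖ ^ 2) + μ * ∫ x, φ x ^ 2) / (subC n q * μ ^ kap n q) := by
    rw [le_div_iff₀ (by positivity)]; linarith
  have h7 := Real.rpow_le_rpow hPq.le h6 (show 0 ≤ q / 2 by positivity)
  rwa [← Real.rpow_mul hP.le, show 2 / q * (q / 2) = 1 by field_simp, Real.rpow_one] at h7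

lemma IsH1.sub' (hn : 3 ≤ n) {q : ℝ} (hq : 2 ≤ q) (hq' : q ≤ cexp n) {μ : ℝ} (hμ : 0 < μ)
    {u : E n → ℝ} {G : E n → E n} (h : IsH1 u G) :
    Integrable (fun x => |u x| ^ q) ∧
      ∫ x, |u x| ^ q ≤ (((∫ x, ‖G x‖ ^ 2) + μ * ∫ x, u x ^ 2) /
        (subC n q * μ ^ kap n q)) ^ (q / 2) := by
  have hq0 : 0 < q := by linarith
  refine h.transfer hq0 (Φ := fun a b => ((a + μ * b) / (subC n q * μ ^ kap n q)) ^ (q / 2)) ?_
    fun φ hφ => hφ.sub_scaled hn hq hq' hμ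
  have : Continuous fun p : ℝ × ℝ => ((p.1 + μ * p.2) / (subC n q * μ ^ kap n q)) ^ (q / 2) := by
    apply Continuous.rpow_const
    · fun_prop
    · intro p; right; positivity
  exact this

/-- The sharp subcritical inequality in `H¹`, with the mass `μ`. -/
lemma IsH1.sub_ineq (hn : 3 ≤ n) {q : ℝ} (hq : 2 ≤ q) (hq' : q ≤ cexp n) {μ : ℝ} (hμ : 0 < μ)
    {u : E n → ℝ} {G : E n → E n} (h : IsH1 u G) :
    subC n q * μ ^ kap n q * (∫ x, |u x| ^ q) ^ (2 / q) ≤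
      (∫ x, ‖G x‖ ^ 2) + μ * ∫ x, u x ^ 2 := by
  have hq0 : 0 < q := by linarith
  have hC := subC_pos hn hq hq'
  have hμk : 0 < μ ^ kap n q := by positivity
  have h1 := (h.sub' hn hq hq' hμ).2
  have hA : 0 ≤ ∫ x, ‖G x‖ ^ 2 := integral_nonneg fun x => by positivity
  have hB : 0 ≤ ∫ x, u x ^ 2 := integral_nonneg fun x => by positivity
  have h2 := Real.rpow_le_rpow (integral_nonneg fun x => by positivity) h1
    (show 0 ≤ 2 / q by positivity)
  rw [← Real.rpow_mul (by positivity), show q / 2 * (2 / q) = 1 by field_simp,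
    Real.rpow_one, le_div_iff₀ (by positivity)] at h2
  linarith

lemma IsH1.int_rpow (hn : 3 ≤ n) {q : ℝ} (hq : 2 ≤ q) (hq' : q ≤ cexp n)
    {u : E n → ℝ} {G : E n → E n} (h : IsH1 u G) : Integrable (fun x => |u x| ^ q) :=
  (h.sub' hn hq hq' one_pos).1

end Pool.Agent.R217.HS
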