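import Pool.Agent.R217.HS.BL
import Pool.Agent.R217.HS.Sob

set_option autoImplicit false
set_option linter.unusedSectionVars false

open MeasureTheory Filter Topology
open scoped ContDiff ENNReal NNReal RealInnerProductSpace

namespace Pool.Agent.R217.HS

open Pool.Agent.R217.BN (E cexp sobS)

/-- Differentiation of `s ↦ ∫ |f + s g|^r`. -/
lemma hasDerivAt_int_rpow {α : Type*} [MeasurableSpace α] {μ : Measure α} {r : ℝ} (hr : 1 < r)
    {f g : α → ℝ} (hf : Integrable (fun x => |f x| ^ r) μ) (hg : Integrable (fun x => |g x| ^ r) μ)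
    (hfm : AEStronglyMeasurable f μ) (hgm : AEStronglyMeasurable g μ) :
    Integrable (fun x => |f x| ^ (r - 2) * f x * g x) μ ∧
    HasDerivAt (fun s : ℝ => ∫ x, |f x + s * g x| ^ r ∂μ)
      (r * ∫ x, |f x| ^ (r - 2) * f x * g x ∂μ) 0 := by
  have hr0 : 0 < r := by linarith
  -- pointwise bound
  have hb : ∀ a b s : ℝ, |s| < 1 →
      ‖r * |a + s * b| ^ (r - 2) * (a + s * b) * b‖ ≤ r * (2 ^ r * (|a| ^ r + |b| ^ r)) := by
    intro a b s hs
    have h1 : ‖r * |a + s * b| ^ (r - 2) * (a + s * b) * b‖ = r * (|a + s * b| ^ (r - 1) * |b|) := by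
      rw [norm_mul, norm_mul, norm_mul, Real.norm_eq_abs, Real.norm_eq_abs, Real.norm_eq_abs,
        Real.norm_eq_abs, abs_of_pos hr0, abs_of_nonneg (show 0 ≤ |a + s * b| ^ (r - 2) by positivity)]
      rcases eq_or_ne (a + s * b) 0 with h0 | h0
      · rw [h0]; simp [Real.zero_rpow (show r - 1 ≠ 0 by linarith)]
      · have : |a + s * b| ^ (r - 1) = |a + s * b| ^ (r - 2) * |a + s * b| := by
          rw [← Real.rpow_add_one (abs_pos.2 h0).ne']; congr 1; ring
        rw [this]; ring
    rw [h1]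
    obtain ⟨m, hm⟩ : ∃ m, m = max |a| |b| := ⟨_, rfl⟩
    have ham : |a| ≤ m := by rw [hm]; exact le_max_left _ _
    have hbm : |b| ≤ m := by rw [hm]; exact le_max_right _ _
    have hm0 : 0 ≤ m := (abs_nonneg _).trans ham
    have h2 : |a + s * b| ≤ 2 * m := by
      have h3 := abs_add_le a (s * b)
      rw [abs_mul] at h3
      have h4 : |s| * |b| ≤ 1 * m := mul_le_mul hs.le hbm (abs_nonneg _) zero_le_one
      linarith
    have h5 : |a + s * b| ^ (r - 1) * |b| ≤ (2 * m) ^ (r - 1) * (2 * m) := by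
      apply mul_le_mul (Real.rpow_le_rpow (abs_nonneg _) h2 (by linarith)) (by linarith)
        (abs_nonneg _) (by positivity)
    have h6 : (2 * m) ^ (r - 1) * (2 * m) = 2 ^ r * m ^ r := by
      rcases eq_or_lt_of_le hm0 with h0 | h0
      · rw [← h0]; simp [Real.zero_rpow hr0.ne']
      · rw [← Real.mul_rpow (by norm_num) hm0, ← Real.rpow_add_one (by positivity)]
        congr 1; ring
    have h7 : m ^ r ≤ |a| ^ r + |b| ^ r := by
      rcases le_total |a| |b| with h | h
      · rw [hm, max_eq_right h]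
        have : 0 ≤ |a| ^ r := by positivity
        linarith
      · rw [hm, max_eq_left h]
        have : 0 ≤ |b| ^ r := by positivity
        linarith
    have h8 : (0:ℝ) < 2 ^ r := by positivity
    have h9 : 2 ^ r * m ^ r ≤ 2 ^ r * (|a| ^ r + |b| ^ r) := by gcongr
    have h10 : |a + s * b| ^ (r - 1) * |b| ≤ 2 ^ r * (|a| ^ r + |b| ^ r) := by linarith
    exact mul_le_mul_of_nonneg_left h10 hr0.le
  have hmeas : ∀ s : ℝ, AEStronglyMeasurable (fun x => |f x + s * g x| ^ r) μ := fun s =>
    (((hfm.add (hgm.const_mul s)).norm).aemeasurable.pow_const r).aestronglyMeasurable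
  have hF'm : AEStronglyMeasurable (fun x => r * |f x + 0 * g x| ^ (r - 2) * (f x + 0 * g x) * g x) μ := by
    have m1 : AEMeasurable (fun x => f x + 0 * g x) μ :=
      hfm.aemeasurable.add (hgm.aemeasurable.const_mul 0)
    have m2 : AEMeasurable (fun x => |f x + 0 * g x| ^ (r - 2)) μ := (m1.abs).pow_const (r - 2)
    exact (((m2.const_mul r).mul m1).mul hgm.aemeasurable).aestronglyMeasurable
  have key := hasDerivAt_integral_of_dominated_loc_of_deriv_le (μ := μ) (𝕜 := ℝ)
    (F := fun (s : ℝ) (x : α) => |f x + s * g x| ^ r)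
    (F' := fun (s : ℝ) (x : α) => r * |f x + s * g x| ^ (r - 2) * (f x + s * g x) * g x)
    (x₀ := (0:ℝ)) (s := Metric.ball (0:ℝ) 1) (bound := fun x => r * (2 ^ r * (|f x| ^ r + |g x| ^ r)))
    (Metric.ball_mem_nhds 0 one_pos) (Eventually.of_forall hmeas)
    (by simpa using hf) hF'm
    (Eventually.of_forall fun x s hs => hb _ _ _ (by simpa using hs))
    (((hf.add hg).const_mul _).const_mul _)
    (Eventually.of_forall fun x s _ => by
      have h1 := hasDerivAt_abs_rpow (f x + s * g x) hr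
      have h2 : HasDerivAt (fun s : ℝ => f x + s * g x) (g x) s := by
        simpa using ((hasDerivAt_id s).mul_const (g x)).const_add (f x)
      have h3 := h1.comp s h2
      exact h3)
  obtain ⟨k1, k2⟩ := key
  simp only [zero_mul, add_zero] at k1 k2
  have e : ∀ x, r * |f x| ^ (r - 2) * f x * g x = r * (|f x| ^ (r - 2) * f x * g x) := by
    intro x; ring
  simp only [e] at k1 k2
  refine ⟨?_, ?_⟩
  · have := k1.const_mul r⁻¹
    refine this.congr (Eventually.of_forall fun x => ?_)
    dsimp only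
    rw [← mul_assoc, inv_mul_cancel₀ hr0.ne', one_mul]
  · rw [integral_const_mul] at k2
    exact k2

variable {n : ℕ}

/-- Integration by parts against a test function. -/
lemma Tst.ibp {ψ : E n → ℝ} (hψ : Tst ψ) : ∃ g : E n → ℝ, MemLp g 2 volume ∧
    ∀ φ : E n → ℝ, Tst φ → ∫ x, ⟪gradient φ x, gradient ψ x⟫ = ∫ x, φ x * g x := by
  let e : Fin n → E n := fun i => EuclideanSpace.basisFun (Fin n) ℝ i
  have hinner : ∀ (φ : E n → ℝ) (x : E n), ⟪gradient φ x, gradient ψ x⟫ =
      ∑ i, fderiv ℝ φ x (e i) * fderiv ℝ ψ x (e i) := by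
    intro φ x
    rw [← (EuclideanSpace.basisFun (Fin n) ℝ).sum_inner_mul_inner]
    apply Finset.sum_congr rfl
    intro i _
    have h1 : ⟪gradient φ x, (EuclideanSpace.basisFun (Fin n) ℝ) i⟫ = fderiv ℝ φ x (e i) := by
      unfold gradient
      rw [InnerProductSpace.toDual_symm_apply]
    have h2 : ⟪(EuclideanSpace.basisFun (Fin n) ℝ) i, gradient ψ x⟫ = fderiv ℝ ψ x (e i) := by
      rw [real_inner_comm]
      unfold gradient
      rw [InnerProductSpace.toDual_symm_apply]
    rw [h1, h2]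
  have hD : ∀ φ : E n → ℝ, Tst φ → ∀ i, Tst (fun x => fderiv ℝ φ x (e i)) := by
    intro φ hφ i
    refine ⟨?_, ?_⟩
    · have h1 : ContDiff ℝ ∞ (fderiv ℝ φ) := hφ.1.fderiv_right (m := ∞) (by simp)
      exact h1.clm_apply contDiff_const
    · exact (hφ.2.fderiv (𝕜 := ℝ)).comp_left (g := fun L : E n →L[ℝ] ℝ => L (e i)) (by simp)
  refine ⟨fun x => -∑ i, fderiv ℝ (fun y => fderiv ℝ ψ y (e i)) x (e i), ?_, ?_⟩
  · have : MemLp (fun x => ∑ i, fderiv ℝ (fun y => fderiv ℝ ψ y (e i)) x (e i)) 2 volume :=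
      memLp_finsetSum _ fun i _ => (hD _ (hD ψ hψ i) i).memLp 2
    exact this.neg
  · intro φ hφ
    simp_rw [hinner]
    rw [integral_finsetSum]
    · have h1 : ∀ i, ∫ x, fderiv ℝ φ x (e i) * fderiv ℝ ψ x (e i) =
          -∫ x, φ x * fderiv ℝ (fun y => fderiv ℝ ψ y (e i)) x (e i) := by
        intro i
        have hi := (hD ψ hψ i)
        have hii := hD _ hi i
        have hφi := hD φ hφ i
        have := integral_mul_fderiv_eq_neg_fderiv_mul_of_integrable (μ := (volume : Measure (E n)))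
          (f := φ) (g := fun y => fderiv ℝ ψ y (e i)) (v := e i)
          ((hφi.mul hi).1.continuous.integrable_of_hasCompactSupport (hφi.mul hi).2)
          ((hφ.mul hii).1.continuous.integrable_of_hasCompactSupport (hφ.mul hii).2)
          ((hφ.mul hi).1.continuous.integrable_of_hasCompactSupport (hφ.mul hi).2)
          (fun x _ => hφ.diff x) (fun x _ => hi.diff x)
        linarith
      simp_rw [h1]
      rw [Finset.sum_neg_distrib, ← integral_finsetSum]
      · rw [← integral_neg]
        congr 1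
        funext x
        rw [mul_neg, Finset.mul_sum]
      · intro i _
        have h2 := hφ.mul (hD _ (hD ψ hψ i) i)
        exact h2.1.continuous.integrable_of_hasCompactSupport h2.2
    · intro i _
      have h2 := (hD φ hφ i).mul (hD ψ hψ i)
      exact h2.1.continuous.integrable_of_hasCompactSupport h2.2

/-- The gradient of the zero function vanishes. -/
lemma IsH1.grad_zero {u : E n → ℝ} {G : E n → E n} (h : IsH1 u G) (hu : u =ᵐ[volume] 0) :
    G =ᵐ[volume] 0 := by
  obtain ⟨φ, hφ, h1, h2⟩ := h.app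
  have hL1 : LTo volume φ u := h1
  have hL2 : LTo volume (fun k => gradient (φ k)) G := h2
  have key : ∀ ψ : E n → ℝ, Tst ψ → ∫ x, ⟪G x, gradient ψ x⟫ = 0 := by
    intro ψ hψ
    obtain ⟨g, hg, hibp⟩ := hψ.ibp
    have cψ : LTo volume (fun _ : ℕ => gradient ψ) (gradient ψ) := by
      unfold LTo; simp
    have cg : LTo volume (fun _ : ℕ => g) g := by
      unfold LTo; simp
    have c1 := hL2.inner cψ (fun k => (hφ k).memLp_grad 2) h.mG (fun _ => hψ.memLp_grad 2)
      (hψ.memLp_grad 2)
    have c2 := hL1.inner cg (fun k => (hφ k).memLp 2) h.mu (fun _ => hg) hg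
    have c3 : Tendsto (fun k => ∫ x, ⟪gradient (φ k) x, gradient ψ x⟫) atTop
        (𝓝 (∫ x, ⟪u x, g x⟫)) := by
      refine c2.congr fun k => ?_
      rw [hibp _ (hφ k)]
      congr 1; funext x
      simp only [RCLike.inner_apply, conj_trivial]
      ring
    have h3 := tendsto_nhds_unique c1 c3
    rw [h3]
    rw [show (0:ℝ) = ∫ _ : E n, (0:ℝ) by simp]
    apply integral_congr_ae
    filter_upwards [hu] with x hx
    rw [hx]; simp
  have cG : LTo volume (fun _ : ℕ => G) G := by
    unfold LTo; simp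
  have c4 := cG.inner hL2 (fun _ => h.mG) h.mG (fun k => (hφ k).memLp_grad 2) h.mG
  have c5 : ∫ x, ⟪G x, G x⟫ = 0 := by
    refine tendsto_nhds_unique c4 ?_
    have : (fun k : ℕ => ∫ x, ⟪G x, gradient (φ k) x⟫) = fun _ => (0:ℝ) := by
      funext k; exact key _ (hφ k)
    rw [this]; exact tendsto_const_nhds
  have e : ∀ x, ⟪G x, G x⟫ = ‖G x‖ ^ 2 := fun x => real_inner_self_eq_norm_sq _
  simp_rw [e] at c5
  rw [integral_eq_zero_iff_of_nonneg (fun x => by positivity) h.int_grad] at c5
  filter_upwards [c5] with x hx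
  simpa using hx

end Pool.Agent.R217.HS
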