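import Pool.Agent.R217.HS.Cpt

set_option autoImplicit false
set_option linter.unusedSectionVars false

open MeasureTheory Filter Topology
open scoped ContDiff ENNReal NNReal RealInnerProductSpace

namespace Pool.Agent.R217.HS

open Pool.Agent.R217.BN (E cexp sobS)

variable {n : ℕ}

lemma memLp_chi {u : E n → ℝ} (hu : MemLp u 2 volume) (R : ℕ) :
    MemLp (fun x => chi n R x * u x) 2 volume := by
  refine hu.of_le_mul (c := 1)
    ((chi_tst R).1.continuous.aestronglyMeasurable.mul hu.1)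
    (Eventually.of_forall fun x => ?_)
  rw [norm_mul, Real.norm_eq_abs, abs_of_nonneg (chi_nonneg R x)]
  gcongr
  exact chi_le R x

/-- Weak and local strong compactness in `H¹`. -/
theorem loc_compact (hn : 2 ≤ n) {u : ℕ → E n → ℝ} {G : ℕ → E n → E n}
    (h : ∀ k, IsH1 (u k) (G k)) {M : ℝ}
    (hM : ∀ k, (∫ x, ‖G k x‖ ^ 2) + ∫ x, u k x ^ 2 ≤ M) :
    ∃ (v : E n → ℝ) (H : E n → E n) (ns : ℕ → ℕ), StrictMono ns ∧ IsH1 v H ∧
      (∀ w : E n → ℝ, MemLp w 2 volume →
        Tendsto (fun k => ∫ x, u (ns k) x * w x) atTop (𝓝 (∫ x, v x * w x))) ∧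
      (∀ W : E n → E n, MemLp W 2 volume →
        Tendsto (fun k => ∫ x, ⟪G (ns k) x, W x⟫) atTop (𝓝 (∫ x, ⟪H x, W x⟫))) ∧
      (∀ R : ℕ, LTo volume (fun k x => chi n R x * u (ns k) x) (fun x => chi n R x * v x)) ∧
      (∀ᵐ x ∂(volume : Measure (E n)), Tendsto (fun k => u (ns k) x) atTop (𝓝 (v x))) := by
  obtain ⟨v, H, n1, hn1, hv, w1, w2⟩ := weak_compact h hM
  have fact2 : Fact ((2:ℝ≥0∞) ≠ ⊤) := ⟨by norm_num⟩
  let S : ℕ → Set (Lp ℝ 2 (volume : Measure (E n))) := fun R =>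
    closure {g : Lp ℝ 2 (volume : Measure (E n)) | ∃ (u : E n → ℝ) (G : E n → E n),
      IsH1 u G ∧ (∫ x, ‖G x‖ ^ 2) + ∫ x, u x ^ 2 ≤ M ∧
      (g : E n → ℝ) =ᵐ[volume] fun x => chi n R x * u x}
  have hS : ∀ R, IsCompact (S R) := fun R =>
    (totallyBounded_chi hn R M).closure.isCompact_of_isClosed isClosed_closure
  have hcomp : IsCompact (Set.pi Set.univ S) := isCompact_univ_pi hS
  let X : ℕ → ℕ → Lp ℝ 2 (volume : Measure (E n)) := fun k R =>
    (memLp_chi (h (n1 k)).mu R).toLp _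
  have hX : ∀ k, X k ∈ Set.pi Set.univ S := by
    intro k R _
    exact subset_closure ⟨u (n1 k), G (n1 k), h _, hM _, MemLp.coeFn_toLp _⟩
  obtain ⟨a, -, n2, hn2, ha⟩ := hcomp.tendsto_subseq hX
  rw [tendsto_pi_nhds] at ha
  have hident : ∀ R, a R = (memLp_chi hv.mu R).toLp _ := by
    intro R
    apply ext_inner_right ℝ
    intro w
    have c1 : Tendsto (fun k => (⟪X (n2 k) R, w⟫ : ℝ)) atTop (𝓝 ⟪a R, w⟫) :=
      (ha R).inner tendsto_const_nhds
    have c2 := (w1 _ (memLp_chi (Lp.memLp w) R)).comp hn2.tendsto_atTop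
    have e1 : ∀ f : E n → ℝ, ∀ hf : MemLp f 2 volume,
        (⟪(memLp_chi hf R).toLp _, w⟫ : ℝ) = ∫ x, f x * (chi n R x * w x) := by
      intro f hf
      rw [L2.inner_def]
      apply integral_congr_ae
      filter_upwards [(memLp_chi hf R).coeFn_toLp] with x hx
      rw [hx, real_inner_comm]
      change _ = _
      rw [RCLike.inner_apply]
      simp only [conj_trivial]
      ring
    have c3 : Tendsto (fun k => (⟪X (n2 k) R, w⟫ : ℝ)) atTop
        (𝓝 ⟪(memLp_chi hv.mu R).toLp _, w⟫) := by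
      rw [e1 v hv.mu]
      refine c2.congr fun k => ?_
      exact (e1 _ (h (n1 (n2 k))).mu).symm
    exact tendsto_nhds_unique c1 c3
  have hLTo : ∀ R : ℕ, LTo volume (fun k x => chi n R x * u (n1 (n2 k)) x)
      (fun x => chi n R x * v x) := by
    intro R
    rw [lTo_iff (fun k => memLp_chi (h _).mu R) (memLp_chi hv.mu R)]
    have := ha R
    rw [hident R] at this
    exact this
  -- an almost everywhere convergent subsequence
  have hex : ∀ j : ℕ, ∀ᶠ m in atTop,
      eLpNorm (fun x => chi n j x * u (n1 (n2 m)) x - chi n j x * v x) 2 volume <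
        ENNReal.ofReal (1 / ((j:ℝ) + 1)) := by
    intro j
    exact (hLTo j).eventually (gt_mem_nhds (by rw [ENNReal.ofReal_pos]; positivity))
  obtain ⟨n3, hn3, h3⟩ := extraction_forall_of_eventually hex
  have hZ : LTo volume (fun j x => chi n j x * u (n1 (n2 (n3 j))) x - chi n j x * v x)
      (fun _ => (0:ℝ)) := by
    unfold LTo
    simp only [sub_zero]
    have hz : Tendsto (fun j : ℕ => ENNReal.ofReal (1 / ((j:ℝ) + 1))) atTop (𝓝 0) := by
      have := (ENNReal.continuous_ofReal.tendsto _).comp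
        (tendsto_one_div_add_atTop_nhds_zero_nat (𝕜 := ℝ))
      rw [ENNReal.ofReal_zero] at this
      exact this
    exact tendsto_of_tendsto_of_tendsto_of_le_of_le tendsto_const_nhds hz (fun j => zero_le)
      (fun j => (h3 j).le)
  obtain ⟨n4, hn4, hae⟩ := hZ.ae
    (fun j => (memLp_chi (h _).mu j).sub (memLp_chi hv.mu j)) MemLp.zero'
  refine ⟨v, H, fun k => n1 (n2 (n3 (n4 k))), hn1.comp (hn2.comp (hn3.comp hn4)), hv, ?_, ?_, ?_, ?_⟩
  · intro w hw
    exact (w1 w hw).comp (hn2.comp (hn3.comp hn4)).tendsto_atTop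
  · intro W hW
    exact (w2 W hW).comp (hn2.comp (hn3.comp hn4)).tendsto_atTop
  · intro R
    exact (hLTo R).comp (hn3.comp hn4).tendsto_atTop
  · filter_upwards [hae] with x hx
    have ev : ∀ᶠ k in atTop, chi n (n4 k) x * u (n1 (n2 (n3 (n4 k)))) x - chi n (n4 k) x * v x =
        u (n1 (n2 (n3 (n4 k)))) x - v x := by
      obtain ⟨K, hK⟩ := exists_nat_ge ‖x‖
      filter_upwards [eventually_ge_atTop K] with k hk
      have hk2 : (K:ℝ) ≤ n4 k := by exact_mod_cast hk.trans (hn4.id_le k)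
      rw [chi_one (by linarith)]
      ring
    have h5 : Tendsto (fun k => u (n1 (n2 (n3 (n4 k)))) x - v x) atTop (𝓝 0) :=
      (tendsto_congr' ev).1 hx
    exact tendsto_sub_nhds_zero_iff.1 h5

end Pool.Agent.R217.HS
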