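import Mathlib

set_option autoImplicit false
set_option linter.unusedSectionVars false

open MeasureTheory Filter Topology
open scoped ContDiff ENNReal NNReal

namespace Pool.Agent.R217.HS

/-- One-sided convexity inequality. -/
lemma add_rpow_le {q : ℝ} (hq : 1 ≤ q) {δ : ℝ} (h0 : 0 < δ) (h1 : δ < 1) (a b : ℝ) :
    |a + b| ^ q ≤ (1 - δ) ^ (1 - q) * |a| ^ q + δ ^ (1 - q) * |b| ^ q := by
  have h1δ : 0 < 1 - δ := by linarith
  have hc := (convexOn_rpow hq).2 (x := |a| / (1 - δ)) (y := |b| / δ)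
    (by simp only [Set.mem_Ici]; positivity) (by simp only [Set.mem_Ici]; positivity)
    h1δ.le h0.le (by ring)
  simp only [smul_eq_mul] at hc
  rw [mul_div_cancel₀ _ h1δ.ne', mul_div_cancel₀ _ h0.ne'] at hc
  have e1 : (1 - δ) * (|a| / (1 - δ)) ^ q = (1 - δ) ^ (1 - q) * |a| ^ q := by
    rw [Real.div_rpow (abs_nonneg _) h1δ.le, Real.rpow_sub h1δ, Real.rpow_one]; ring
  have e2 : δ * (|b| / δ) ^ q = δ ^ (1 - q) * |b| ^ q := by
    rw [Real.div_rpow (abs_nonneg _) h0.le, Real.rpow_sub h0, Real.rpow_one]; ring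
  rw [e1, e2] at hc
  refine le_trans ?_ hc
  exact Real.rpow_le_rpow (abs_nonneg _) (abs_add_le a b) (by linarith)

lemma exists_BL_const {q : ℝ} (hq : 1 ≤ q) {ε : ℝ} (hε : 0 < ε) :
    ∃ C : ℝ, 0 ≤ C ∧ ∀ a b : ℝ, |(|a + b| ^ q - |a| ^ q)| ≤ ε * |a| ^ q + C * |b| ^ q := by
  obtain ⟨η, hη0, hη⟩ : ∃ η : ℝ, 0 < η ∧ η * (1 + η) ≤ ε ∧ η ≤ ε := by
    refine ⟨min 1 (ε / 2), by positivity, ?_, ?_⟩
    · have h1 : min 1 (ε / 2) ≤ 1 := min_le_left _ _
      have h2 : min 1 (ε / 2) ≤ ε / 2 := min_le_right _ _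
      have h3 : 0 < min 1 (ε / 2) := by positivity
      nlinarith
    · have h2 : min 1 (ε / 2) ≤ ε / 2 := min_le_right _ _
      linarith
  have hcont : Tendsto (fun δ : ℝ => (1 - δ) ^ (1 - q)) (𝓝 0) (𝓝 ((1 - 0) ^ (1 - q))) := by
    apply Tendsto.rpow_const
    · exact tendsto_const_nhds.sub tendsto_id
    · left; norm_num
  rw [sub_zero, Real.one_rpow] at hcont
  have hev : ∀ᶠ δ : ℝ in 𝓝 0, (1 - δ) ^ (1 - q) < 1 + η :=
    hcont.eventually (gt_mem_nhds (by linarith))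
  obtain ⟨δ, hδ, h0, h1⟩ : ∃ δ : ℝ, (1 - δ) ^ (1 - q) < 1 + η ∧ 0 < δ ∧ δ < 1 := by
    obtain ⟨r, hr, hr2⟩ := Metric.eventually_nhds_iff.1 hev
    refine ⟨min (r / 2) (1 / 2), hr2 ?_, by positivity, ?_⟩
    · rw [Real.dist_eq, sub_zero, abs_of_pos (by positivity)]
      have := min_le_left (r / 2) (1 / 2 : ℝ)
      linarith
    · have := min_le_right (r / 2) (1 / 2 : ℝ)
      linarith
  set D := δ ^ (1 - q) with hD
  have hD0 : 0 ≤ D := by positivity
  have key : ∀ a b : ℝ, |a + b| ^ q ≤ (1 + η) * |a| ^ q + D * |b| ^ q := by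
    intro a b
    refine (add_rpow_le hq h0 h1 a b).trans ?_
    gcongr
  refine ⟨D * (1 + η) + D, by positivity, fun a b => ?_⟩
  have ha : 0 ≤ |a| ^ q := by positivity
  have hb : 0 ≤ |b| ^ q := by positivity
  have hab : 0 ≤ |a + b| ^ q := by positivity
  have k1 := key a b
  have k2 := key (a + b) (-b)
  rw [add_neg_cancel_right, abs_neg] at k2
  have hk3 : η * |a + b| ^ q ≤ η * ((1 + η) * |a| ^ q + D * |b| ^ q) :=
    mul_le_mul_of_nonneg_left k1 hη0.le
  rw [abs_le]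
  constructor
  · nlinarith [mul_nonneg hD0 hb, mul_nonneg (mul_nonneg hD0 hb) hη0.le, mul_le_mul_of_nonneg_right hη.1 ha]
  · nlinarith [mul_nonneg hD0 hb, mul_nonneg (mul_nonneg hD0 hb) hη0.le, mul_le_mul_of_nonneg_right hη.2 ha]

/-- The Brezis-Lieb lemma. -/
theorem brezis_lieb {α : Type*} [MeasurableSpace α] {μ : Measure α} {q : ℝ} (hq : 1 ≤ q)
    {f : ℕ → α → ℝ} {g : α → ℝ}
    (hf : ∀ k, Integrable (fun x => |f k x| ^ q) μ) (hg : Integrable (fun x => |g x| ^ q) μ)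
    (hfm : ∀ k, AEStronglyMeasurable (f k) μ) (hgm : AEStronglyMeasurable g μ)
    {M : ℝ} (hM : ∀ k, ∫ x, |f k x| ^ q ∂μ ≤ M)
    (hae : ∀ᵐ x ∂μ, Tendsto (fun k => f k x) atTop (𝓝 (g x))) :
    Tendsto (fun k => (∫ x, |f k x| ^ q ∂μ) - ∫ x, |f k x - g x| ^ q ∂μ) atTop
      (𝓝 (∫ x, |g x| ^ q ∂μ)) := by
  have hq0 : 0 < q := by linarith
  -- the difference is integrable with bounded integral
  have h2 : (1 - (1/2:ℝ)) ^ (1 - q) = 2 ^ (q - 1) := by
    rw [show (1:ℝ) - 1/2 = 2⁻¹ by norm_num, Real.inv_rpow (by norm_num), ← Real.rpow_neg (by norm_num)]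
    congr 1; ring
  have hbd : ∀ k x, |f k x - g x| ^ q ≤ 2 ^ (q - 1) * (|f k x| ^ q + |g x| ^ q) := by
    intro k x
    have := add_rpow_le hq (δ := 1/2) (by norm_num) (by norm_num) (f k x) (-(g x))
    rw [h2, abs_neg, ← sub_eq_add_neg] at this
    have h3 : ((1/2:ℝ)) ^ (1 - q) = 2 ^ (q - 1) := by rw [← h2]; norm_num
    rw [h3] at this
    linarith
  have hm : ∀ k, AEStronglyMeasurable (fun x => |f k x - g x| ^ q) μ := fun k =>
    (((hfm k).sub hgm).norm.aemeasurable.pow_const q).aestronglyMeasurable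
  have hi : ∀ k, Integrable (fun x => |f k x - g x| ^ q) μ := by
    intro k
    apply Integrable.mono' (((hf k).add hg).const_mul (2 ^ (q - 1))) (hm k)
    filter_upwards with x
    rw [Real.norm_eq_abs, abs_of_nonneg (by positivity)]
    exact hbd k x
  set M' := 2 ^ (q - 1) * (M + ∫ x, |g x| ^ q ∂μ) with hM'
  have hib : ∀ k, ∫ x, |f k x - g x| ^ q ∂μ ≤ M' := by
    intro k
    calc ∫ x, |f k x - g x| ^ q ∂μ ≤ ∫ x, 2 ^ (q - 1) * (|f k x| ^ q + |g x| ^ q) ∂μ :=
          integral_mono (hi k) (((hf k).add hg).const_mul _) (hbd k)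
      _ = 2 ^ (q - 1) * ((∫ x, |f k x| ^ q ∂μ) + ∫ x, |g x| ^ q ∂μ) := by
          rw [integral_const_mul, integral_add (hf k) hg]
      _ ≤ M' := by
          rw [hM']
          gcongr
          exact hM k
  have hM'0 : 0 ≤ M' := (integral_nonneg fun x => by positivity).trans (hib 0)
  rw [Metric.tendsto_atTop]
  intro ε hε
  obtain ⟨η, hη, hη2⟩ : ∃ η : ℝ, 0 < η ∧ η * M' < ε / 2 := by
    refine ⟨ε / (2 * (M' + 1)), by positivity, ?_⟩
    rw [div_mul_eq_mul_div, div_lt_div_iff₀ (by positivity) (by positivity)]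
    nlinarith
  obtain ⟨C, hC, hBL⟩ := exists_BL_const hq hη
  -- the main function
  let W : ℕ → α → ℝ := fun k x =>
    max (|(|f k x| ^ q - |f k x - g x| ^ q - |g x| ^ q)| - η * |f k x - g x| ^ q) 0
  have hWle : ∀ k x, W k x ≤ (1 + C) * |g x| ^ q := by
    intro k x
    have h5 := hBL (f k x - g x) (g x)
    rw [sub_add_cancel] at h5
    have hg0 : 0 ≤ |g x| ^ q := by positivity
    apply max_le _ (by positivity)
    have h6 : |(|f k x| ^ q - |f k x - g x| ^ q - |g x| ^ q)| ≤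
        |(|f k x| ^ q - |f k x - g x| ^ q)| + |g x| ^ q := by
      refine (abs_sub _ _).trans ?_
      rw [abs_of_nonneg hg0]
    linarith
  have hWlim : ∀ᵐ x ∂μ, Tendsto (fun k => W k x) atTop (𝓝 0) := by
    filter_upwards [hae] with x hx
    have a1 : Tendsto (fun k => |f k x| ^ q) atTop (𝓝 (|g x| ^ q)) :=
      hx.abs.rpow_const (Or.inr hq0.le)
    have a2 : Tendsto (fun k => |f k x - g x| ^ q) atTop (𝓝 0) := by
      have := (hx.sub_const (g x)).abs.rpow_const (p := q) (Or.inr hq0.le)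
      simpa [Real.zero_rpow hq0.ne'] using this
    have a3 := (((a1.sub a2).sub_const (|g x| ^ q)).abs.sub (a2.const_mul η)).max
      (tendsto_const_nhds (x := (0:ℝ)))
    simpa using a3
  have hWm : ∀ k, AEStronglyMeasurable (W k) μ := by
    intro k
    have b1 : AEMeasurable (fun x => |f k x| ^ q) μ := (hf k).1.aemeasurable
    have b2 : AEMeasurable (fun x => |f k x - g x| ^ q) μ := (hi k).1.aemeasurable
    have b3 : AEMeasurable (fun x => |g x| ^ q) μ := hg.1.aemeasurable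
    have b4 : AEMeasurable (fun x => |(|f k x| ^ q - |f k x - g x| ^ q - |g x| ^ q)|) μ :=
      ((b1.sub b2).sub b3).abs
    exact ((b4.sub (b2.const_mul η)).max aemeasurable_const).aestronglyMeasurable
  have hWint : Tendsto (fun k => ∫ x, W k x ∂μ) atTop (𝓝 (∫ _, (0:ℝ) ∂μ)) := by
    apply tendsto_integral_of_dominated_convergence (fun x => (1 + C) * |g x| ^ q) hWm
      (hg.const_mul _)
    · intro k
      filter_upwards with x
      rw [Real.norm_eq_abs, abs_of_nonneg (le_max_right _ _)]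
      exact hWle k x
    · exact hWlim
  rw [integral_zero] at hWint
  obtain ⟨K, hK⟩ := Metric.tendsto_atTop.1 hWint (ε / 2) (by positivity)
  refine ⟨K, fun k hk => ?_⟩
  have h7 := hK k hk
  rw [Real.dist_eq, sub_zero] at h7
  have hWi : Integrable (W k) μ := by
    apply Integrable.mono' (hg.const_mul (1 + C)) (hWm k)
    filter_upwards with x
    rw [Real.norm_eq_abs, abs_of_nonneg (le_max_right _ _)]
    exact hWle k x
  rw [Real.dist_eq]
  have e1 : (∫ x, |f k x| ^ q ∂μ) - (∫ x, |f k x - g x| ^ q ∂μ) - ∫ x, |g x| ^ q ∂μ =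
      ∫ x, (|f k x| ^ q - |f k x - g x| ^ q - |g x| ^ q) ∂μ := by
    have i1 : Integrable (fun x => |f k x| ^ q - |f k x - g x| ^ q) μ := (hf k).sub (hi k)
    rw [integral_sub i1 hg, integral_sub (hf k) (hi k)]
  rw [e1]
  calc |∫ x, (|f k x| ^ q - |f k x - g x| ^ q - |g x| ^ q) ∂μ|
      ≤ ∫ x, |(|f k x| ^ q - |f k x - g x| ^ q - |g x| ^ q)| ∂μ := abs_integral_le_integral_abs
    _ ≤ ∫ x, (W k x + η * |f k x - g x| ^ q) ∂μ := by
        apply integral_mono
        · exact (((hf k).sub (hi k)).sub hg).abs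
        · exact hWi.add ((hi k).const_mul η)
        · intro x
          have := le_max_left (|(|f k x| ^ q - |f k x - g x| ^ q - |g x| ^ q)| -
            η * |f k x - g x| ^ q) 0
          change _ ≤ W k x + η * |f k x - g x| ^ q
          change _ ≤ W k x at this
          linarith
    _ = (∫ x, W k x ∂μ) + η * ∫ x, |f k x - g x| ^ q ∂μ := by
        rw [integral_add hWi ((hi k).const_mul η), integral_const_mul]
    _ < ε := by
        have h8 := hib k
        have h9 := le_abs_self (∫ x, W k x ∂μ)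
        have h10 : η * ∫ x, |f k x - g x| ^ q ∂μ ≤ η * M' := mul_le_mul_of_nonneg_left h8 hη.le
        linarith

end Pool.Agent.R217.HS
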