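import Pool.Agent.R217.HS.Base
import Pool.Agent.Helper420.QI.Sob

set_option autoImplicit false
set_option linter.unusedSectionVars false

open MeasureTheory Filter Topology
open scoped ContDiff ENNReal NNReal RealInnerProductSpace

namespace Pool.Agent.R217.HS

open Pool.Agent.R217.BN (E cexp sobS)

variable {n : ℕ}

/-- The Hilbert space of pairs. -/
abbrev XX (n : ℕ) : Type :=
  WithLp 2 (Lp ℝ 2 (volume : Measure (E n)) × Lp (E n) 2 (volume : Measure (E n)))

/-- Pairs `(φ, ∇φ)`. -/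
noncomputable def TS (n : ℕ) : Submodule ℝ (XX n) where
  carrier := {p | ∃ φ : E n → ℝ, Tst φ ∧ (p.fst : E n → ℝ) =ᵐ[volume] φ ∧
    (p.snd : E n → E n) =ᵐ[volume] gradient φ}
  add_mem' := by
    rintro a b ⟨φ, hφ, h1, h2⟩ ⟨ψ, hψ, h3, h4⟩
    refine ⟨fun x => φ x + ψ x, hφ.add hψ, ?_, ?_⟩
    · rw [WithLp.add_fst]
      filter_upwards [Lp.coeFn_add a.fst b.fst, h1, h3] with x e1 e2 e3
      rw [e1, Pi.add_apply, e2, e3]
    · rw [WithLp.add_snd]
      filter_upwards [Lp.coeFn_add a.snd b.snd, h2, h4] with x e1 e2 e3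
      rw [e1, Pi.add_apply, e2, e3, gradient_add (hφ.diff x) (hψ.diff x)]
  zero_mem' := by
    refine ⟨fun _ => 0, ⟨contDiff_const, HasCompactSupport.zero⟩, ?_, ?_⟩
    · rw [WithLp.zero_fst]
      filter_upwards [Lp.coeFn_zero ℝ 2 (volume : Measure (E n))] with x e1
      rw [e1, Pi.zero_apply]
    · rw [WithLp.zero_snd]
      filter_upwards [Lp.coeFn_zero (E n) 2 (volume : Measure (E n))] with x e1
      rw [e1, Pi.zero_apply, gradient]
      simp
  smul_mem' := by
    rintro c a ⟨φ, hφ, h1, h2⟩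
    refine ⟨fun x => c * φ x, hφ.smul c, ?_, ?_⟩
    · rw [WithLp.smul_fst]
      filter_upwards [Lp.coeFn_smul c a.fst, h1] with x e1 e2
      rw [e1, Pi.smul_apply, e2, smul_eq_mul]
    · rw [WithLp.smul_snd]
      filter_upwards [Lp.coeFn_smul c a.snd, h2] with x e1 e2
      rw [e1, Pi.smul_apply, e2, gradient_smul c (hφ.diff x)]

lemma isH1_of_mem {p : XX n} (hp : p ∈ (TS n).topologicalClosure) :
    IsH1 (p.fst : E n → ℝ) (p.snd : E n → E n) := by
  have hp' : p ∈ closure (TS n : Set (XX n)) := hp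
  rw [mem_closure_iff_seq_limit] at hp'
  obtain ⟨q, hq, hqp⟩ := hp'
  have hq' : ∀ k, ∃ φ : E n → ℝ, Tst φ ∧ ((q k).fst : E n → ℝ) =ᵐ[volume] φ ∧
    ((q k).snd : E n → E n) =ᵐ[volume] gradient φ := fun k => hq k
  choose φ hφ h1 h2 using hq'
  have c1 : Tendsto (fun k => (q k).fst) atTop (𝓝 p.fst) :=
    ((WithLp.continuous_fst 2 _ _).tendsto p).comp hqp
  have c2 : Tendsto (fun k => (q k).snd) atTop (𝓝 p.snd) :=
    ((WithLp.continuous_snd 2 _ _).tendsto p).comp hqp
  rw [Lp.tendsto_Lp_iff_tendsto_eLpNorm'] at c1 c2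
  refine ⟨Lp.memLp _, Lp.memLp _, φ, hφ, ?_, ?_⟩
  · refine c1.congr fun k => eLpNorm_congr_ae ?_
    filter_upwards [h1 k] with x hx
    rw [Pi.sub_apply, hx]
  · refine c2.congr fun k => eLpNorm_congr_ae ?_
    filter_upwards [h2 k] with x hx
    rw [Pi.sub_apply, hx]

lemma IsH1.mem {u : E n → ℝ} {G : E n → E n} (h : IsH1 u G) :
    (WithLp.toLp 2 (h.mu.toLp u, h.mG.toLp G) : XX n) ∈ (TS n).topologicalClosure := by
  obtain ⟨φ, hφ, h1, h2⟩ := h.app
  have hL1 : LTo volume φ u := h1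
  have hL2 : LTo volume (fun k => gradient (φ k)) G := h2
  have c1 := hL1.toLp (fun k => (hφ k).memLp 2) h.mu
  have c2 := hL2.toLp (fun k => (hφ k).memLp_grad 2) h.mG
  change _ ∈ closure (TS n : Set (XX n))
  rw [mem_closure_iff_seq_limit]
  refine ⟨fun k => WithLp.toLp 2 (((hφ k).memLp 2).toLp (φ k),
    ((hφ k).memLp_grad 2).toLp (gradient (φ k))), fun k => ?_, ?_⟩
  · exact ⟨φ k, hφ k, MemLp.coeFn_toLp ((hφ k).memLp 2), MemLp.coeFn_toLp ((hφ k).memLp_grad 2)⟩
  · exact ((WithLp.prod_continuous_toLp 2 _ _).tendsto _).comp (c1.prodMk_nhds c2)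

lemma weak_mem {X : Type*} [NormedAddCommGroup X] [InnerProductSpace ℝ X] [CompleteSpace X]
    {V : Submodule ℝ X} {y : ℕ → X} (hy : ∀ k, y k ∈ V.topologicalClosure) {z : X}
    (h : ∀ w, Tendsto (fun k => ⟪y k, w⟫) atTop (𝓝 ⟪z, w⟫)) : z ∈ V.topologicalClosure := by
  have hcomp : CompleteSpace V.topologicalClosure :=
    (V.isClosed_topologicalClosure.isComplete).completeSpace_coe
  rw [← Submodule.orthogonal_orthogonal V.topologicalClosure]
  rw [Submodule.mem_orthogonal]
  intro w hw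
  rw [Submodule.mem_orthogonal] at hw
  have h1 : Tendsto (fun k => ⟪y k, w⟫) atTop (𝓝 0) := by
    have : (fun k => ⟪y k, w⟫) = fun _ => (0:ℝ) := by
      funext k; exact hw _ (hy k)
    rw [this]; exact tendsto_const_nhds
  rw [real_inner_comm]
  exact tendsto_nhds_unique (h w) h1

/-- Weak compactness in `H¹`. -/
theorem weak_compact {u : ℕ → E n → ℝ} {G : ℕ → E n → E n} (h : ∀ k, IsH1 (u k) (G k)) {M : ℝ}
    (hM : ∀ k, (∫ x, ‖G k x‖ ^ 2) + ∫ x, u k x ^ 2 ≤ M) :
    ∃ (v : E n → ℝ) (H : E n → E n) (ns : ℕ → ℕ), StrictMono ns ∧ IsH1 v H ∧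
      (∀ w : E n → ℝ, MemLp w 2 volume →
        Tendsto (fun k => ∫ x, u (ns k) x * w x) atTop (𝓝 (∫ x, v x * w x))) ∧
      (∀ W : E n → E n, MemLp W 2 volume →
        Tendsto (fun k => ∫ x, ⟪G (ns k) x, W x⟫) atTop (𝓝 (∫ x, ⟪H x, W x⟫))) := by
  have b1 : ∀ k, ‖(h k).mu.toLp (u k)‖ ≤ Real.sqrt M := by
    intro k
    apply Real.le_sqrt_of_sq_le
    rw [norm_sq_toLp]
    have h1 := hM k
    have h2 : 0 ≤ ∫ x, ‖G k x‖ ^ 2 := integral_nonneg fun x => by positivity
    simp only [Real.norm_eq_abs, sq_abs]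
    linarith
  have b2 : ∀ k, ‖(h k).mG.toLp (G k)‖ ≤ Real.sqrt M := by
    intro k
    apply Real.le_sqrt_of_sq_le
    rw [norm_sq_toLp]
    have h1 := hM k
    have h2 : 0 ≤ ∫ x, u k x ^ 2 := integral_nonneg fun x => by positivity
    linarith
  have fact2 : Fact ((2:ℝ≥0∞) ≠ ⊤) := ⟨by norm_num⟩
  obtain ⟨z1, n1, hn1, hz1⟩ := exists_weak_subseq (fun k => (h k).mu.toLp (u k)) b1
  obtain ⟨z2, n2, hn2, hz2⟩ := exists_weak_subseq (fun k => (h (n1 k)).mG.toLp (G (n1 k)))
    (fun k => b2 (n1 k))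
  have hz : (WithLp.toLp 2 (z1, z2) : XX n) ∈ (TS n).topologicalClosure := by
    apply weak_mem (y := fun k => (WithLp.toLp 2 ((h (n1 (n2 k))).mu.toLp (u (n1 (n2 k))),
      (h (n1 (n2 k))).mG.toLp (G (n1 (n2 k)))) : XX n)) (fun k => (h _).mem)
    intro w
    have a1 := (hz1 w.fst).comp hn2.tendsto_atTop
    have a2 := hz2 w.snd
    have a3 := a1.add a2
    simp only [WithLp.prod_inner_apply]
    exact a3
  have hH := isH1_of_mem hz
  refine ⟨_, _, fun k => n1 (n2 k), hn1.comp hn2, hH, ?_, ?_⟩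
  · intro w hw
    have a1 := (hz1 (hw.toLp w)).comp hn2.tendsto_atTop
    have e : (⟪z1, hw.toLp w⟫ : ℝ) = ∫ x, z1 x * w x := by
      rw [L2.inner_def]
      apply integral_congr_ae
      filter_upwards [hw.coeFn_toLp] with x hx
      rw [hx, real_inner_comm]
      rfl
    rw [e] at a1
    refine a1.congr fun k => ?_
    simp only [Function.comp_apply]
    rw [inner_toLp]
    apply integral_congr_ae
    filter_upwards with x
    rw [real_inner_comm]
    rfl
  · intro W hW
    have a1 := hz2 (hW.toLp W)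
    have e : (⟪z2, hW.toLp W⟫ : ℝ) = ∫ x, ⟪z2 x, W x⟫ := by
      rw [L2.inner_def]
      apply integral_congr_ae
      filter_upwards [hW.coeFn_toLp] with x hx
      rw [hx]
    rw [e] at a1
    refine a1.congr fun k => ?_
    rw [inner_toLp]

/-- Cutoff functions. -/
noncomputable def chi (n R : ℕ) : ContDiffBump (0 : E n) :=
  ⟨R + 1, R + 2, by positivity, by linarith⟩

lemma chi_tst (R : ℕ) : Tst (chi n R : E n → ℝ) := ⟨(chi n R).contDiff, (chi n R).hasCompactSupport⟩

lemma chi_one {R : ℕ} {x : E n} (h : ‖x‖ ≤ R + 1) : chi n R x = 1 :=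
  (chi n R).one_of_mem_closedBall (by simpa [chi] using h)

lemma chi_nonneg (R : ℕ) (x : E n) : 0 ≤ chi n R x := (chi n R).nonneg

lemma chi_le (R : ℕ) (x : E n) : chi n R x ≤ 1 := (chi n R).le_one

/-- Local compactness. -/
lemma totallyBounded_chi (hn : 2 ≤ n) (R : ℕ) (M : ℝ) :
    TotallyBounded {g : Lp ℝ 2 (volume : Measure (E n)) | ∃ (u : E n → ℝ) (G : E n → E n),
      IsH1 u G ∧ (∫ x, ‖G x‖ ^ 2) + ∫ x, u x ^ 2 ≤ M ∧
      (g : E n → ℝ) =ᵐ[volume] fun x => chi n R x * u x} := by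
  classical
  -- bound of the gradient of the cutoff
  obtain ⟨C, hC⟩ : ∃ C : ℝ, ∀ x : E n, ‖gradient (chi n R : E n → ℝ) x‖ ≤ C := by
    have hc := (chi_tst (n := n) R).cg
    have hs := BN.gradient_compact (chi_tst (n := n) R).2
    exact hs.exists_bound_of_continuous hc
  have hC0 : 0 ≤ C := (norm_nonneg _).trans (hC 0)
  obtain ⟨M', hM'⟩ : ∃ M' : ℝ≥0, (M' : ℝ≥0∞) =
      (1 + ENNReal.ofReal C) * (ENNReal.ofReal (Real.sqrt M) + 1) := by
    refine ⟨((1 + ENNReal.ofReal C) * (ENNReal.ofReal (Real.sqrt M) + 1)).toNNReal, ?_⟩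
    rw [ENNReal.coe_toNNReal]
    exact ENNReal.mul_ne_top (by simp) (by simp)
  rw [Metric.totallyBounded_iff]
  intro ε hε
  obtain ⟨T, hTf, hT, hTc⟩ := Helper420.QI.Sob.rellich (N := n) (Ω := Metric.ball 0 (R + 3)) hn
    Metric.isBounded_ball M' (show 0 < ε / 3 by positivity)
  let Θ : (E n → ℝ) → Lp ℝ 2 (volume : Measure (E n)) :=
    fun φ => if h : MemLp φ 2 volume then h.toLp φ else 0
  refine ⟨Θ '' T, hTf.image Θ, ?_⟩
  rintro g ⟨u, G, hu, hb, hg⟩
  rw [Set.mem_iUnion₂]
  obtain ⟨φ, hφ, h1, h2⟩ := hu.app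
  have ev1 : ∀ᶠ k in atTop, eLpNorm (fun x => φ k x - u x) 2 volume < ENNReal.ofReal (min 1 (ε / 3)) :=
    h1.eventually (gt_mem_nhds (by rw [ENNReal.ofReal_pos]; positivity))
  have ev2 : ∀ᶠ k in atTop, eLpNorm (fun x => gradient (φ k) x - G x) 2 volume < 1 :=
    h2.eventually (gt_mem_nhds (by norm_num))
  obtain ⟨k, hk1, hk2⟩ := (ev1.and ev2).exists
  have nu : eLpNorm u 2 volume ≤ ENNReal.ofReal (Real.sqrt M) := by
    rw [eLpNorm_two_of_sq hu.mu]
    apply ENNReal.ofReal_le_ofReal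
    apply Real.sqrt_le_sqrt
    have : 0 ≤ ∫ x, ‖G x‖ ^ 2 := integral_nonneg fun x => by positivity
    simp only [Real.norm_eq_abs, sq_abs]
    linarith
  have nG : eLpNorm G 2 volume ≤ ENNReal.ofReal (Real.sqrt M) := by
    rw [eLpNorm_two_of_sq hu.mG]
    apply ENNReal.ofReal_le_ofReal
    apply Real.sqrt_le_sqrt
    have : 0 ≤ ∫ x, u x ^ 2 := integral_nonneg fun x => by positivity
    linarith
  have nφ : eLpNorm (φ k) 2 volume ≤ ENNReal.ofReal (Real.sqrt M) + 1 := by
    have e : φ k = (fun x => φ k x - u x) + u := by funext x; simp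
    calc eLpNorm (φ k) 2 volume = eLpNorm ((fun x => φ k x - u x) + u) 2 volume := by rw [← e]
      _ ≤ eLpNorm (fun x => φ k x - u x) 2 volume + eLpNorm u 2 volume :=
        eLpNorm_add_le (((hφ k).memLp 2).sub hu.mu).1 hu.mu.1 (by norm_num)
      _ ≤ 1 + ENNReal.ofReal (Real.sqrt M) := by
        gcongr
        refine hk1.le.trans ?_
        rw [ENNReal.ofReal_le_one]
        exact min_le_left _ _
      _ = _ := add_comm _ _
  have nφ' : eLpNorm (gradient (φ k)) 2 volume ≤ ENNReal.ofReal (Real.sqrt M) + 1 := by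
    have e : gradient (φ k) = (fun x => gradient (φ k) x - G x) + G := by funext x; simp
    calc eLpNorm (gradient (φ k)) 2 volume =
          eLpNorm ((fun x => gradient (φ k) x - G x) + G) 2 volume := by rw [← e]
      _ ≤ eLpNorm (fun x => gradient (φ k) x - G x) 2 volume + eLpNorm G 2 volume :=
        eLpNorm_add_le (((hφ k).memLp_grad 2).sub hu.mG).1 hu.mG.1 (by norm_num)
      _ ≤ 1 + ENNReal.ofReal (Real.sqrt M) := by gcongr
      _ = _ := add_comm _ _
  have hTst : Tst (fun x => chi n R x * φ k x) := (chi_tst R).mul (hφ k)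
  have hIs : Helper420.QI.QEig.IsTest (Metric.ball (0 : E n) (R + 3))
      (fun x => chi n R x * φ k x) := by
    refine ⟨hTst.1, hTst.2, ?_⟩
    refine (tsupport_mul_subset_left (f := (chi n R : E n → ℝ)) (g := φ k)).trans ?_
    rw [(chi n R).tsupport_eq]
    intro x hx
    simp only [chi, Metric.mem_closedBall, Metric.mem_ball, dist_zero_right] at hx ⊢
    linarith
  have hgr : eLpNorm (fderiv ℝ (fun x => chi n R x * φ k x)) 2 volume ≤ M' := by
    have e1 : eLpNorm (fderiv ℝ (fun x => chi n R x * φ k x)) 2 (volume : Measure (E n)) =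
        eLpNorm (gradient (fun x => chi n R x * φ k x)) 2 volume :=
      eLpNorm_congr_norm_ae (Eventually.of_forall fun x => (BN.norm_gradient _ x).symm)
    rw [e1, hM']
    have e2 : gradient (fun x => chi n R x * φ k x) =
        (fun x => chi n R x • gradient (φ k) x) + fun x => φ k x • gradient (chi n R : E n → ℝ) x := by
      funext x
      rw [gradient_mul ((chi_tst R).diff x) ((hφ k).diff x)]
      rfl
    rw [e2]
    have m1 : AEStronglyMeasurable (fun x => chi n R x • gradient (φ k) x) volume :=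
      ((chi_tst R).1.continuous.smul (hφ k).cg).aestronglyMeasurable
    have m2 : AEStronglyMeasurable (fun x => φ k x • gradient (chi n R : E n → ℝ) x) volume :=
      ((hφ k).1.continuous.smul (chi_tst R).cg).aestronglyMeasurable
    refine (eLpNorm_add_le m1 m2 (by norm_num)).trans ?_
    have a1 : eLpNorm (fun x => chi n R x • gradient (φ k) x) 2 volume ≤
        eLpNorm (gradient (φ k)) 2 volume := by
      apply eLpNorm_mono
      intro x
      rw [norm_smul, Real.norm_eq_abs, abs_of_nonneg (chi_nonneg R x)]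
      exact mul_le_of_le_one_left (norm_nonneg _) (chi_le R x)
    have a2 : eLpNorm (fun x => φ k x • gradient (chi n R : E n → ℝ) x) 2 volume ≤
        ENNReal.ofReal C * eLpNorm (φ k) 2 volume := by
      have := eLpNorm_le_mul_eLpNorm_of_ae_le_mul (μ := (volume : Measure (E n)))
        (f := fun x => φ k x • gradient (chi n R : E n → ℝ) x) (g := φ k) (c := C) (p := 2)
        (Eventually.of_forall fun x => by
          rw [norm_smul, mul_comm]
          exact mul_le_mul_of_nonneg_right (hC x) (norm_nonneg _))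
      exact this
    calc _ ≤ (ENNReal.ofReal (Real.sqrt M) + 1) +
          ENNReal.ofReal C * (ENNReal.ofReal (Real.sqrt M) + 1) := by
          gcongr
          · exact a1.trans nφ'
          · exact a2.trans (by gcongr)
      _ = _ := by ring
  obtain ⟨ψ, hψT, hψ⟩ := hTc _ hIs hgr
  have hψt := (hT ψ hψT).1
  have hψL : MemLp ψ 2 volume := hψt.1.continuous.memLp_of_hasCompactSupport hψt.2.1
  refine ⟨Θ ψ, ⟨ψ, hψT, rfl⟩, ?_⟩
  have hΘψ : Θ ψ = hψL.toLp ψ := by simp only [Θ, dif_pos hψL]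
  rw [Metric.mem_ball, hΘψ]
  have hgm : MemLp (fun x => chi n R x * u x) 2 volume := by
    refine hu.mu.of_le_mul (c := 1)
      ((chi_tst R).1.continuous.aestronglyMeasurable.mul hu.mu.1)
      (Eventually.of_forall fun x => ?_)
    rw [norm_mul, Real.norm_eq_abs, abs_of_nonneg (chi_nonneg R x)]
    gcongr
    exact chi_le R x
  have eg : g = hgm.toLp _ := by
    apply Lp.ext
    exact hg.trans (MemLp.coeFn_toLp hgm).symm
  rw [eg, dist_eq_norm, ← MemLp.toLp_sub hgm hψL, Lp.norm_toLp]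
  have t1 : eLpNorm ((fun x => chi n R x * u x) - ψ) 2 volume ≤
      ENNReal.ofReal (ε / 3) + ENNReal.ofReal (ε / 3) := by
    have e : (fun x => chi n R x * u x) - ψ =
        (fun x => chi n R x * (u x - φ k x)) + fun x => chi n R x * φ k x - ψ x := by
      funext x
      simp only [Pi.sub_apply, Pi.add_apply]
      ring
    rw [e]
    have m1 : AEStronglyMeasurable (fun x => chi n R x * (u x - φ k x)) volume :=
      (chi_tst R).1.continuous.aestronglyMeasurable.mul
        (hu.mu.1.sub (hφ k).1.continuous.aestronglyMeasurable)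
    have m2 : AEStronglyMeasurable (fun x => chi n R x * φ k x - ψ x) volume :=
      (hTst.1.continuous.sub hψt.1.continuous).aestronglyMeasurable
    refine (eLpNorm_add_le m1 m2 (by norm_num)).trans ?_
    gcongr
    calc eLpNorm (fun x => chi n R x * (u x - φ k x)) 2 volume ≤
          eLpNorm (fun x => φ k x - u x) 2 volume := by
          apply eLpNorm_mono
          intro x
          rw [norm_mul, Real.norm_eq_abs, abs_of_nonneg (chi_nonneg R x), norm_sub_rev]
          exact mul_le_of_le_one_left (norm_nonneg _) (chi_le R x)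
      _ ≤ ENNReal.ofReal (ε / 3) := by
          refine hk1.le.trans (ENNReal.ofReal_le_ofReal (min_le_right _ _))
  have t2 := ENNReal.toReal_mono (by simp) t1
  rw [ENNReal.toReal_add (by simp) (by simp), ENNReal.toReal_ofReal (by positivity)] at t2
  linarith

end Pool.Agent.R217.HS
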