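import Pool.Agent.R217.HS.Sob
import Pool.Agent.R217.HS.Cpt
import Pool.Agent.R217.HS.BL

set_option autoImplicit false
set_option linter.unusedSectionVars false

open MeasureTheory Filter Topology
open scoped ContDiff ENNReal NNReal RealInnerProductSpace

namespace Pool.Agent.R217.HS

open Pool.Agent.R217.BN (E cexp sobS)

variable {n : ℕ}

/-- The intermediate exponent. -/
noncomputable def q0 (n : ℕ) : ℝ := 2 + 4 / (n:ℝ)

/-- Interpolation between `L²` and `L^{2*}`. -/
lemma interp_q0 (hn : 3 ≤ n) {φ : E n → ℝ} (h : Tst φ) :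
    ∫ x, |φ x| ^ q0 n ≤ (∫ x, φ x ^ 2) ^ (2 / (n:ℝ)) * (∫ x, |φ x| ^ cexp n) ^ (2 / cexp n) := by
  have hn3 : (3:ℝ) ≤ n := by exact_mod_cast hn
  have hn0 : (n:ℝ) ≠ 0 := by linarith
  have hn2 : (n:ℝ) - 2 ≠ 0 := by linarith
  have hc := BN.cexp_pos hn
  have hpq : ((n:ℝ) / 2).HolderConjugate ((n:ℝ) / (n - 2)) := by
    rw [Real.holderConjugate_iff]
    constructor
    · linarith
    · field_simp
      ring
  have m1 : MemLp (fun x => |φ x| ^ (4 / (n:ℝ))) (ENNReal.ofReal ((n:ℝ) / 2)) volume := by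
    apply Continuous.memLp_of_hasCompactSupport
    · exact h.1.continuous.abs.rpow_const fun x => Or.inr (by positivity)
    · exact h.2.comp_left (g := fun t => |t| ^ (4 / (n:ℝ)))
        (by simp [Real.zero_rpow (show 4 / (n:ℝ) ≠ 0 by positivity)])
  have m2 : MemLp (fun x => |φ x| ^ (2:ℝ)) (ENNReal.ofReal ((n:ℝ) / (n - 2))) volume := by
    apply Continuous.memLp_of_hasCompactSupport
    · exact h.1.continuous.abs.rpow_const fun x => Or.inr (by positivity)
    · exact h.2.comp_left (g := fun t => |t| ^ (2:ℝ)) (by simp)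
  have key := integral_mul_le_Lp_mul_Lq_of_nonneg hpq (μ := (volume : Measure (E n)))
    (Eventually.of_forall fun x => by positivity) (Eventually.of_forall fun x => by positivity) m1 m2
  have e1 : ∀ x, |φ x| ^ (4 / (n:ℝ)) * |φ x| ^ (2:ℝ) = |φ x| ^ q0 n := by
    intro x
    rcases eq_or_ne (φ x) 0 with h0 | h0
    · rw [h0, abs_zero, Real.zero_rpow (show 4 / (n:ℝ) ≠ 0 by positivity), zero_mul,
        Real.zero_rpow (by unfold q0; positivity)]
    · rw [← Real.rpow_add (abs_pos.2 h0), q0, add_comm]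
  have e2 : ∀ x, (|φ x| ^ (4 / (n:ℝ))) ^ ((n:ℝ) / 2) = φ x ^ 2 := by
    intro x
    rw [← Real.rpow_mul (abs_nonneg _), show 4 / (n:ℝ) * ((n:ℝ) / 2) = 2 by field_simp; norm_num,
      Real.rpow_two, sq_abs]
  have e3 : ∀ x, (|φ x| ^ (2:ℝ)) ^ ((n:ℝ) / (n - 2)) = |φ x| ^ cexp n := by
    intro x
    rw [← Real.rpow_mul (abs_nonneg _)]
    congr 1
    unfold cexp; ring
  simp only [e1, e2, e3] at key
  have e4 : 1 / ((n:ℝ) / 2) = 2 / (n:ℝ) := by field_simp
  have e5 : 1 / ((n:ℝ) / (n - 2)) = 2 / cexp n := by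
    unfold cexp; field_simp
  rw [e4, e5] at key
  exact key

/-- Elementary interpolation. -/
lemma elem_interp {q r s : ℝ} (hq : 2 < q) (hqr : q < r) (hs : 0 < s) {ε : ℝ} (hε : 0 < ε) :
    ∃ C : ℝ, 0 < C ∧ ∀ t : ℝ, 0 ≤ t → t ^ q ≤ ε * t ^ 2 + ε * t ^ r + C * t ^ s := by
  obtain ⟨δ, hδ0, hδ⟩ : ∃ δ : ℝ, 0 < δ ∧ δ ^ (q - 2) ≤ ε := by
    refine ⟨ε ^ (q - 2)⁻¹, by positivity, ?_⟩
    rw [← Real.rpow_mul hε.le, inv_mul_cancel₀ (by linarith), Real.rpow_one]
  obtain ⟨L, hL0, hL⟩ : ∃ L : ℝ, 0 < L ∧ L ^ (q - r) ≤ ε := by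
    refine ⟨ε ^ (q - r)⁻¹, by positivity, ?_⟩
    rw [← Real.rpow_mul hε.le, inv_mul_cancel₀ (by linarith), Real.rpow_one]
  refine ⟨L ^ q / δ ^ s, by positivity, fun t ht => ?_⟩
  have hts : 0 ≤ t ^ s := by positivity
  have htr : 0 ≤ t ^ r := by positivity
  have hC : 0 < L ^ q / δ ^ s := by positivity
  rcases eq_or_lt_of_le ht with h0 | h0
  · rw [← h0, Real.zero_rpow (by linarith : q ≠ 0)]
    positivity
  rcases le_total t δ with h1 | h1
  · have e : t ^ q = t ^ (q - 2) * t ^ 2 := by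
      rw [← Real.rpow_two, ← Real.rpow_add h0]; congr 1; ring
    have h2 : t ^ (q - 2) ≤ ε := (Real.rpow_le_rpow ht h1 (by linarith)).trans hδ
    rw [e]
    have h3 : t ^ (q - 2) * t ^ 2 ≤ ε * t ^ 2 := by gcongr
    have h4 : 0 ≤ ε * t ^ r := by positivity
    have h5 : 0 ≤ L ^ q / δ ^ s * t ^ s := by positivity
    linarith
  rcases le_total L t with h2 | h2
  · have e : t ^ q = t ^ (q - r) * t ^ r := by
      rw [← Real.rpow_add h0]; congr 1; ring
    have h3 : t ^ (q - r) ≤ ε := by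
      refine le_trans ?_ hL
      exact Real.rpow_le_rpow_of_nonpos hL0 h2 (by linarith)
    rw [e]
    have h4 : t ^ (q - r) * t ^ r ≤ ε * t ^ r := by gcongr
    have h5 : 0 ≤ ε * t ^ 2 := by positivity
    have h6 : 0 ≤ L ^ q / δ ^ s * t ^ s := by positivity
    linarith
  · have h3 : t ^ q ≤ L ^ q := Real.rpow_le_rpow ht h2 (by linarith)
    have h4 : δ ^ s ≤ t ^ s := Real.rpow_le_rpow hδ0.le h1 hs.le
    have h5 : L ^ q ≤ L ^ q / δ ^ s * t ^ s := by
      rw [div_mul_eq_mul_div, le_div_iff₀ (by positivity)]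
      gcongr
    have h6 : 0 ≤ ε * t ^ 2 := by positivity
    have h7 : 0 ≤ ε * t ^ r := by positivity
    linarith

/-- The convolution identity. -/
lemma lint_conv {K f : E n → ℝ≥0∞} (hK : Measurable K) (hf : Measurable f) :
    ∫⁻ y, ∫⁻ x, K (x - y) * f x = (∫⁻ y, K y) * ∫⁻ x, f x := by
  rw [lintegral_lintegral_swap]
  · have : ∀ x, ∫⁻ y, K (x - y) * f x = (∫⁻ y, K y) * f x := by
      intro x
      rw [lintegral_mul_const _ (by fun_prop)]
      congr 1
      exact lintegral_sub_left_eq_self K x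
    simp_rw [this]
    rw [lintegral_const_mul _ hf]
  · apply Measurable.aemeasurable
    fun_prop

lemma chi0_pos : 0 < ∫ x : E n, |chi n 0 x| ^ q0 n := by
  apply (chi_tst (n := n) 0).rpow_pos
  · intro h
    have h1 := congrFun h 0
    rw [chi_one (by simp)] at h1
    simp at h1
  · unfold q0; positivity

/-- Lions' lemma for test functions. -/
lemma lions_test (hn : 3 ≤ n) {q : ℝ} (hq : 2 < q) (hq' : q < cexp n) {M α : ℝ}
    (hα : 0 < α) : ∃ β : ℝ, 0 < β ∧ ∀ φ : E n → ℝ, Tst φ →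
      (∫ x, ‖gradient φ x‖ ^ 2) + (∫ x, φ x ^ 2) ≤ M → α ≤ ∫ x, |φ x| ^ q →
      ∃ y : E n, β ≤ ∫ x in Metric.ball y 3, φ x ^ 2 := by
  have hn3 : (3:ℝ) ≤ n := by exact_mod_cast hn
  have hc := BN.cexp_pos hn
  have hS := BN.sobS_pos hn
  have hq00 : 0 < q0 n := by unfold q0; positivity
  obtain ⟨C, hC⟩ : ∃ C : ℝ, ∀ x : E n, ‖gradient (chi n 0 : E n → ℝ) x‖ ≤ C :=
    (BN.gradient_compact (chi_tst (n := n) 0).2).exists_bound_of_continuous (chi_tst (n := n) 0).cg
  have hC0 : 0 ≤ C := (norm_nonneg _).trans (hC 0)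
  by_cases hM : M < 0
  · refine ⟨1, one_pos, fun φ _ h1 _ => ?_⟩
    have a1 : 0 ≤ ∫ x, ‖gradient φ x‖ ^ 2 := integral_nonneg fun x => by positivity
    have a2 : 0 ≤ ∫ x, φ x ^ 2 := integral_nonneg fun x => by positivity
    linarith
  push Not at hM
  obtain ⟨B, hB⟩ : ∃ B : ℝ, B = M + (M / sobS n) ^ (cexp n / 2) := ⟨_, rfl⟩
  have hB0 : 0 ≤ B := by rw [hB]; positivity
  obtain ⟨ε, hε, hεB⟩ : ∃ ε : ℝ, 0 < ε ∧ ε * B ≤ α / 2 := by
    refine ⟨α / (2 * (B + 1)), by positivity, ?_⟩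
    rw [div_mul_eq_mul_div, div_le_div_iff₀ (by positivity) (by positivity)]
    nlinarith
  obtain ⟨D, hD, hint⟩ := elem_interp hq hq' hq00 hε
  obtain ⟨α0, hα0⟩ : ∃ α0, α0 = α / (2 * D) := ⟨_, rfl⟩
  have hα0p : 0 < α0 := by rw [hα0]; positivity
  obtain ⟨I0, hI0⟩ : ∃ I0, I0 = ∫ x : E n, |chi n 0 x| ^ q0 n := ⟨_, rfl⟩
  have hI0p : 0 < I0 := by rw [hI0]; exact chi0_pos
  obtain ⟨V, hV⟩ : ∃ V, V = (volume (Metric.ball (0 : E n) 3)).toReal := ⟨_, rfl⟩
  have hV0 : 0 ≤ V := by rw [hV]; exact ENNReal.toReal_nonneg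
  obtain ⟨K, hK⟩ : ∃ K, K = 2 * (1 + C ^ 2) := ⟨_, rfl⟩
  have hK0 : 0 ≤ K := by rw [hK]; positivity
  obtain ⟨Z, hZ⟩ : ∃ Z, Z = K / sobS n * V * M := ⟨_, rfl⟩
  have hZ0 : 0 ≤ Z := by rw [hZ]; positivity
  obtain ⟨β, hβ0, hβ⟩ : ∃ β : ℝ, 0 < β ∧ β ^ (2 / (n:ℝ)) * Z < I0 * α0 := by
    refine ⟨(I0 * α0 / (Z + 1)) ^ ((n:ℝ) / 2), by positivity, ?_⟩
    rw [← Real.rpow_mul (by positivity), show (n:ℝ) / 2 * (2 / (n:ℝ)) = 1 by field_simp,
      Real.rpow_one, div_mul_eq_mul_div, div_lt_iff₀ (by positivity)]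
    have : 0 < I0 * α0 := by positivity
    nlinarith
  refine ⟨β, hβ0, fun φ hφ hb hα' => ?_⟩
  by_contra hcon
  push Not at hcon
  -- lower bound of the `q0` integral
  have hg0 : 0 ≤ ∫ x, ‖gradient φ x‖ ^ 2 := integral_nonneg fun x => by positivity
  have hs0 : 0 ≤ ∫ x, φ x ^ 2 := integral_nonneg fun x => by positivity
  have low : α0 ≤ ∫ x, |φ x| ^ q0 n := by
    have h1 : ∫ x, |φ x| ^ q ≤ ε * (∫ x, φ x ^ 2) + ε * (∫ x, |φ x| ^ cexp n) +
        D * ∫ x, |φ x| ^ q0 n := by
      rw [← integral_const_mul, ← integral_const_mul, ← integral_const_mul,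
        ← integral_add (hφ.int_sq.const_mul _) ((hφ.int_rpow hc).const_mul _)]
      have i12 : Integrable (fun x => ε * φ x ^ 2 + ε * |φ x| ^ cexp n) :=
        (hφ.int_sq.const_mul _).add ((hφ.int_rpow hc).const_mul _)
      rw [← integral_add i12 ((hφ.int_rpow hq00).const_mul _)]
      apply integral_mono (hφ.int_rpow (by linarith)) (i12.add ((hφ.int_rpow hq00).const_mul _))
      intro x
      have := hint |φ x| (abs_nonneg _)
      rw [sq_abs] at this
      exact this
    have h2 : ∫ x, |φ x| ^ cexp n ≤ (M / sobS n) ^ (cexp n / 2) := by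
      refine (hφ.sobolev hn).trans ?_
      apply Real.rpow_le_rpow (by positivity) _ (by positivity)
      gcongr
      linarith
    have h3 : ε * (∫ x, φ x ^ 2) + ε * (∫ x, |φ x| ^ cexp n) ≤ ε * B := by
      rw [← mul_add, hB]
      gcongr
      linarith
    rw [hα0, div_le_iff₀ (by positivity)]
    nlinarith
  -- the inequality for every ball
  have hloc : ∀ y : E n, ∫⁻ x, ENNReal.ofReal (|chi n 0 (x - y)| ^ q0 n) *
      ENNReal.ofReal (|φ x| ^ q0 n) ≤ ENNReal.ofReal (β ^ (2 / (n:ℝ)) * (K / sobS n)) *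
        ∫⁻ x, (Metric.ball (0 : E n) 3).indicator (fun _ => (1:ℝ≥0∞)) (x - y) *
          ENNReal.ofReal (‖gradient φ x‖ ^ 2 + φ x ^ 2) := by
    intro y
    have hχ : Tst (fun x => chi n 0 (x + -y)) := (chi_tst 0).trans (-y)
    have hψ : Tst (fun x => chi n 0 (x + -y) * φ x) := hχ.mul hφ
    have hzero : ∀ x, x ∉ Metric.ball y 3 → chi n 0 (x + -y) = 0 := by
      intro x hx
      apply (chi n 0).zero_of_le_dist
      simp only [chi, Metric.mem_ball, not_lt, dist_eq_norm, sub_zero] at hx ⊢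
      rw [← sub_eq_add_neg]
      push_cast
      linarith
    have hgr : ∀ x, ‖gradient (fun x => chi n 0 (x + -y) * φ x) x‖ ^ 2 ≤
        K * (Metric.ball y 3).indicator (fun x => ‖gradient φ x‖ ^ 2 + φ x ^ 2) x := by
      intro x
      by_cases hx : x ∈ Metric.ball y 3
      · rw [Set.indicator_of_mem hx, gradient_mul (hχ.diff x) (hφ.diff x), gradient_trans]
        have a1 : ‖chi n 0 (x + -y) • gradient φ x‖ ≤ ‖gradient φ x‖ := by
          rw [norm_smul, Real.norm_eq_abs, abs_of_nonneg (chi_nonneg 0 _)]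
          exact mul_le_of_le_one_left (norm_nonneg _) (chi_le 0 _)
        have a2 : ‖φ x • gradient (chi n 0 : E n → ℝ) (x + -y)‖ ≤ C * |φ x| := by
          rw [norm_smul, Real.norm_eq_abs, mul_comm]
          exact mul_le_mul_of_nonneg_right (hC _) (abs_nonneg _)
        have a3 := norm_add_le (chi n 0 (x + -y) • gradient φ x)
          (φ x • gradient (chi n 0 : E n → ℝ) (x + -y))
        have a4 : ‖chi n 0 (x + -y) • gradient φ x +
            φ x • gradient (chi n 0 : E n → ℝ) (x + -y)‖ ^ 2 ≤ (‖gradient φ x‖ + C * |φ x|) ^ 2 := by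
          apply pow_le_pow_left₀ (norm_nonneg _)
          linarith
        refine a4.trans ?_
        rw [hK]
        have a5 := sq_abs (φ x)
        nlinarith [sq_nonneg (‖gradient φ x‖ - C * |φ x|), mul_nonneg (sq_nonneg C) (sq_nonneg ‖gradient φ x‖),
          sq_nonneg (φ x), mul_nonneg (sq_nonneg C) (sq_nonneg (φ x))]
      · rw [Set.indicator_of_notMem hx, mul_zero]
        have hev : (fun x => chi n 0 (x + -y) * φ x) =ᶠ[𝓝 x] fun _ => 0 := by
          have hx' : x ∈ (Metric.closedBall y 2)ᶜ := by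
            simp only [Metric.mem_ball, not_lt, Set.mem_compl_iff, Metric.mem_closedBall, not_le] at hx ⊢
            linarith
          filter_upwards [Metric.isClosed_closedBall.isOpen_compl.mem_nhds hx'] with z hz
          have : chi n 0 (z + -y) = 0 := by
            apply (chi n 0).zero_of_le_dist
            simp only [chi, Set.mem_compl_iff, Metric.mem_closedBall, not_le,
              dist_eq_norm, sub_zero] at hz ⊢
            rw [← sub_eq_add_neg]
            push_cast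
            linarith
          rw [this, zero_mul]
        have hg : gradient (fun x => chi n 0 (x + -y) * φ x) x = 0 := by
          unfold gradient
          rw [hev.fderiv_eq]
          simp
        rw [hg]
        simp
    have hiball : IntegrableOn (fun x => ‖gradient φ x‖ ^ 2 + φ x ^ 2) (Metric.ball y 3) :=
      (hφ.int_grad.add hφ.int_sq).integrableOn
    have k1 : ∫ x, ‖gradient (fun x => chi n 0 (x + -y) * φ x) x‖ ^ 2 ≤
        K * ∫ x in Metric.ball y 3, (‖gradient φ x‖ ^ 2 + φ x ^ 2) := by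
      rw [← integral_indicator Metric.isOpen_ball.measurableSet, ← integral_const_mul]
      apply integral_mono hψ.int_grad
      · exact (hiball.integrable_indicator Metric.isOpen_ball.measurableSet).const_mul K
      · exact hgr
    have k2 : ∫ x, (chi n 0 (x + -y) * φ x) ^ 2 ≤ β := by
      refine le_trans ?_ (hcon y).le
      rw [← integral_indicator Metric.isOpen_ball.measurableSet]
      apply integral_mono hψ.int_sq
      · exact (hφ.int_sq.integrableOn).integrable_indicator Metric.isOpen_ball.measurableSet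
      · intro x
        dsimp only
        by_cases hx : x ∈ Metric.ball y 3
        · rw [Set.indicator_of_mem hx, mul_pow]
          have b1 := chi_nonneg (n := n) 0 (x + -y)
          have b2 := chi_le (n := n) 0 (x + -y)
          have b3 : (chi n 0 (x + -y)) ^ 2 ≤ 1 := by nlinarith
          nlinarith [sq_nonneg (φ x)]
        · rw [Set.indicator_of_notMem hx, hzero x hx]
          simp
    have k3 : (∫ x, |chi n 0 (x + -y) * φ x| ^ cexp n) ^ (2 / cexp n) ≤
        K / sobS n * ∫ x in Metric.ball y 3, (‖gradient φ x‖ ^ 2 + φ x ^ 2) := by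
      have := hψ.isH1.sobolev hn
      rw [div_mul_eq_mul_div, le_div_iff₀ hS]
      linarith
    have hnn : 0 ≤ ∫ x, (chi n 0 (x + -y) * φ x) ^ 2 := integral_nonneg fun x => by positivity
    have k4 : ∫ x, |chi n 0 (x + -y) * φ x| ^ q0 n ≤ β ^ (2 / (n:ℝ)) * (K / sobS n) *
        ∫ x in Metric.ball y 3, (‖gradient φ x‖ ^ 2 + φ x ^ 2) := by
      refine (interp_q0 hn hψ).trans ?_
      rw [mul_assoc]
      gcongr
    have l1 : ∫⁻ x, ENNReal.ofReal (|chi n 0 (x - y)| ^ q0 n) * ENNReal.ofReal (|φ x| ^ q0 n) =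
        ENNReal.ofReal (∫ x, |chi n 0 (x + -y) * φ x| ^ q0 n) := by
      rw [ofReal_integral_eq_lintegral_ofReal (hψ.int_rpow hq00)
        (Eventually.of_forall fun x => by positivity)]
      apply lintegral_congr
      intro x
      rw [← ENNReal.ofReal_mul (by positivity), abs_mul, Real.mul_rpow (abs_nonneg _) (abs_nonneg _),
        sub_eq_add_neg]
    have l2 : ∫⁻ x, (Metric.ball (0 : E n) 3).indicator (fun _ => (1:ℝ≥0∞)) (x - y) *
        ENNReal.ofReal (‖gradient φ x‖ ^ 2 + φ x ^ 2) =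
        ENNReal.ofReal (∫ x in Metric.ball y 3, (‖gradient φ x‖ ^ 2 + φ x ^ 2)) := by
      rw [ofReal_integral_eq_lintegral_ofReal hiball
        (Eventually.of_forall fun x => by positivity),
        ← lintegral_indicator Metric.isOpen_ball.measurableSet]
      apply lintegral_congr
      intro x
      by_cases hx : x ∈ Metric.ball y 3
      · have : x - y ∈ Metric.ball (0 : E n) 3 := by
          simpa [dist_eq_norm] using hx
        rw [Set.indicator_of_mem hx, Set.indicator_of_mem this, one_mul]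
      · have : x - y ∉ Metric.ball (0 : E n) 3 := by
          simpa [dist_eq_norm] using hx
        rw [Set.indicator_of_notMem hx, Set.indicator_of_notMem this, zero_mul]
    rw [l1, l2, ← ENNReal.ofReal_mul (by positivity)]
    exact ENNReal.ofReal_le_ofReal k4
  -- integrate over the centre
  have hmain := lintegral_mono (μ := (volume : Measure (E n))) hloc
  have mχ : Measurable fun x : E n => ENNReal.ofReal (|chi n 0 x| ^ q0 n) :=
    ((chi_tst (n := n) 0).1.continuous.abs.rpow_const fun x => Or.inr hq00.le).measurable.ennreal_ofReal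
  have mφ : Measurable fun x : E n => ENNReal.ofReal (|φ x| ^ q0 n) :=
    (hφ.1.continuous.abs.rpow_const fun x => Or.inr hq00.le).measurable.ennreal_ofReal
  have mI : Measurable fun x : E n => (Metric.ball (0 : E n) 3).indicator (fun _ => (1:ℝ≥0∞)) x :=
    measurable_const.indicator Metric.isOpen_ball.measurableSet
  have mG : Measurable fun x : E n => ENNReal.ofReal (‖gradient φ x‖ ^ 2 + φ x ^ 2) := by
    have : Continuous fun x : E n => ‖gradient φ x‖ ^ 2 + φ x ^ 2 :=
      (hφ.cg.norm.pow 2).add (hφ.1.continuous.pow 2)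
    exact this.measurable.ennreal_ofReal
  rw [lint_conv mχ mφ, lintegral_const_mul', lint_conv mI mG] at hmain
  swap
  · exact ENNReal.ofReal_ne_top
  have iG : Integrable (fun x : E n => ‖gradient φ x‖ ^ 2 + φ x ^ 2) :=
    hφ.int_grad.add hφ.int_sq
  have eV : ∫⁻ y : E n, (Metric.ball (0 : E n) 3).indicator (fun _ => (1:ℝ≥0∞)) y =
      ENNReal.ofReal V := by
    rw [hV, ENNReal.ofReal_toReal (measure_ball_lt_top (μ := (volume : Measure (E n)))).ne]
    exact lintegral_indicator_one Metric.isOpen_ball.measurableSet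
  have hD2 : ∫ x, (‖gradient φ x‖ ^ 2 + φ x ^ 2) ≤ M := by
    rw [integral_add hφ.int_grad hφ.int_sq]; exact hb
  have hD20 : 0 ≤ ∫ x, (‖gradient φ x‖ ^ 2 + φ x ^ 2) := integral_nonneg fun x => by positivity
  have hc0 : 0 ≤ β ^ (2 / (n:ℝ)) * (K / sobS n) := by positivity
  rw [← ofReal_integral_eq_lintegral_ofReal ((chi_tst (n := n) 0).int_rpow hq00)
      (Eventually.of_forall fun x => by positivity), ← hI0,
    ← ofReal_integral_eq_lintegral_ofReal (hφ.int_rpow hq00)
      (Eventually.of_forall fun x => by positivity),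
    ← ofReal_integral_eq_lintegral_ofReal iG
      (Eventually.of_forall fun x => by positivity), eV,
    ← ENNReal.ofReal_mul hI0p.le, ← ENNReal.ofReal_mul hV0, ← ENNReal.ofReal_mul hc0] at hmain
  have h1 := (ENNReal.ofReal_le_ofReal_iff (by positivity)).1 hmain
  have h2 : I0 * α0 ≤ I0 * ∫ x, |φ x| ^ q0 n := by gcongr
  have h3 : β ^ (2 / (n:ℝ)) * (K / sobS n) * (V * ∫ x, (‖gradient φ x‖ ^ 2 + φ x ^ 2)) ≤
      β ^ (2 / (n:ℝ)) * (K / sobS n) * (V * M) := by gcongr
  have h4 : β ^ (2 / (n:ℝ)) * (K / sobS n) * (V * M) = β ^ (2 / (n:ℝ)) * Z := by rw [hZ]; ring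
  linarith

/-- Lions' lemma in `H¹`. -/
theorem lions (hn : 3 ≤ n) {q : ℝ} (hq : 2 < q) (hq' : q < cexp n) {M α : ℝ}
    (hα : 0 < α) : ∃ β : ℝ, 0 < β ∧ ∀ (u : E n → ℝ) (G : E n → E n), IsH1 u G →
      (∫ x, ‖G x‖ ^ 2) + (∫ x, u x ^ 2) ≤ M → α ≤ ∫ x, |u x| ^ q →
      ∃ y : E n, β ≤ ∫ x in Metric.ball y 3, u x ^ 2 := by
  obtain ⟨β, hβ, hL⟩ := lions_test hn hq hq' (M := M + 1) (show 0 < α / 2 by positivity)
  refine ⟨β / 4, by positivity, fun u G hu hb ha => ?_⟩
  obtain ⟨φ, hφ, h1, h2⟩ := hu.app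
  have hL1 : LTo volume φ u := h1
  have hL2 : LTo volume (fun k => gradient (φ k)) G := h2
  have c1 := hL1.sq (fun k => (hφ _).memLp 2) hu.mu
  have c2 := hL2.sq (fun k => (hφ _).memLp_grad 2) hu.mG
  have c3 := hL1.sub_sq (fun k => (hφ _).memLp 2) hu.mu
  simp only [Real.norm_eq_abs, sq_abs] at c1 c3
  -- convergence of the `q` integrals along the full sequence, by Sobolev-type bound
  have hint : ∀ k, IsH1 (fun x => φ k x - u x) (fun x => gradient (φ k) x - G x) := fun k =>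
    (hφ k).isH1.sub hu
  have c4 := hL2.sub_sq (fun k => (hφ _).memLp_grad 2) hu.mG
  have hq0 : 0 < q := by linarith
  -- the `L^q` norm of the difference tends to zero
  have c5 : Tendsto (fun k => ∫ x, |φ k x - u x| ^ q) atTop (𝓝 0) := by
    have b : ∀ k, ∫ x, |φ k x - u x| ^ q ≤
        (((∫ x, ‖gradient (φ k) x - G x‖ ^ 2) + 1 * ∫ x, (φ k x - u x) ^ 2) /
          (subC n q * 1 ^ kap n q)) ^ (q / 2) := fun k =>
      ((hint k).sub' hn hq.le hq'.le one_pos).2
    have lim : Tendsto (fun k => (((∫ x, ‖gradient (φ k) x - G x‖ ^ 2) +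
        1 * ∫ x, (φ k x - u x) ^ 2) / (subC n q * 1 ^ kap n q)) ^ (q / 2)) atTop (𝓝 0) := by
      have := (((c4.add (c3.const_mul 1)).div_const (subC n q * 1 ^ kap n q))).rpow_const
        (p := q / 2) (Or.inr (by positivity))
      simpa [Real.zero_rpow (show q / 2 ≠ 0 by positivity)] using this
    exact tendsto_of_tendsto_of_tendsto_of_le_of_le tendsto_const_nhds lim
      (fun k => integral_nonneg fun x => by positivity) b
  -- lower bound
  obtain ⟨C, hC0, hC⟩ := exists_BL_const (q := q) (by linarith) (ε := 1 / 4) (by norm_num)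
  have hlow : ∀ k, (∫ x, |u x| ^ q) ≤ 5 / 4 * (∫ x, |φ k x| ^ q) + C * ∫ x, |φ k x - u x| ^ q := by
    intro k
    rw [← integral_const_mul, ← integral_const_mul, ← integral_add
      (((hφ k).int_rpow hq0).const_mul _) (((hint k).int_rpow hn hq.le hq'.le).const_mul _)]
    apply integral_mono (hu.int_rpow hn hq.le hq'.le)
    · exact (((hφ k).int_rpow hq0).const_mul _).add (((hint k).int_rpow hn hq.le hq'.le).const_mul _)
    · intro x
      have := (abs_le.1 (hC (φ k x) (-(φ k x - u x)))).2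
      rw [abs_neg, show φ k x + -(φ k x - u x) = u x by ring] at this
      dsimp only
      linarith
  have ev1 : ∀ᶠ k in atTop, C * ∫ x, |φ k x - u x| ^ q < α / 4 := by
    have := c5.const_mul C
    rw [mul_zero] at this
    exact this.eventually (gt_mem_nhds (by positivity))
  have ev2 : ∀ᶠ k in atTop, (∫ x, ‖gradient (φ k) x‖ ^ 2) + (∫ x, φ k x ^ 2) < M + 1 :=
    (c2.add c1).eventually (gt_mem_nhds (by linarith))
  have ev3 : ∀ᶠ k in atTop, ∫ x, (φ k x - u x) ^ 2 < β / 4 :=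
    c3.eventually (gt_mem_nhds (by positivity))
  obtain ⟨k, hk1, hk2, hk3⟩ := (ev1.and (ev2.and ev3)).exists
  obtain ⟨y, hy⟩ := hL (φ k) (hφ k) hk2.le (by linarith [hlow k])
  refine ⟨y, ?_⟩
  have hi1 : Integrable (fun x => (φ k x - u x) ^ 2) := (hint k).int_sq
  have h5 : ∫ x in Metric.ball y 3, φ k x ^ 2 ≤
      2 * (∫ x in Metric.ball y 3, u x ^ 2) + 2 * ∫ x, (φ k x - u x) ^ 2 := by
    have h6 : ∫ x in Metric.ball y 3, (φ k x - u x) ^ 2 ≤ ∫ x, (φ k x - u x) ^ 2 :=
      setIntegral_le_integral hi1 (Eventually.of_forall fun x => by positivity)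
    have h7 : ∫ x in Metric.ball y 3, φ k x ^ 2 ≤
        2 * (∫ x in Metric.ball y 3, u x ^ 2) + 2 * ∫ x in Metric.ball y 3, (φ k x - u x) ^ 2 := by
      rw [← integral_const_mul, ← integral_const_mul, ← integral_add
        (hu.int_sq.integrableOn.const_mul 2) (hi1.integrableOn.const_mul 2)]
      apply integral_mono (hφ k).int_sq.integrableOn
      · exact (hu.int_sq.integrableOn.const_mul 2).add (hi1.integrableOn.const_mul 2)
      · intro x
        dsimp only
        nlinarith [sq_nonneg (φ k x - u x - u x)]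
    linarith
  linarith

end Pool.Agent.R217.HS
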