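import Pool.Agent.R217.HS.L2
import Pool.Agent.R217.BN.Defs

set_option autoImplicit false
set_option linter.unusedSectionVars false

open MeasureTheory Filter Topology
open scoped ContDiff ENNReal NNReal RealInnerProductSpace

namespace Pool.Agent.R217.HS

open Pool.Agent.R217.BN (E cexp sobS)

variable {n : ℕ}

/-- Smooth functions with compact support. -/
def Tst (φ : E n → ℝ) : Prop := ContDiff ℝ ∞ φ ∧ HasCompactSupport φ

/-- `u ∈ H¹(ℝⁿ)` with gradient `G`: the closure of the smooth compactly supported functions. -/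
structure IsH1 (u : E n → ℝ) (G : E n → E n) : Prop where
  mu : MemLp u 2 volume
  mG : MemLp G 2 volume
  app : ∃ φ : ℕ → E n → ℝ, (∀ k, Tst (φ k)) ∧
    Tendsto (fun k => eLpNorm (fun x => φ k x - u x) 2 volume) atTop (𝓝 0) ∧
    Tendsto (fun k => eLpNorm (fun x => gradient (φ k) x - G x) 2 volume) atTop (𝓝 0)

lemma Tst.memLp {φ : E n → ℝ} (h : Tst φ) (p : ℝ≥0∞) : MemLp φ p volume :=
  h.1.continuous.memLp_of_hasCompactSupport h.2

lemma Tst.cg {φ : E n → ℝ} (h : Tst φ) : Continuous (gradient φ) :=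
  BN.gradient_continuous h.1

lemma Tst.memLp_grad {φ : E n → ℝ} (h : Tst φ) (p : ℝ≥0∞) : MemLp (gradient φ) p volume :=
  h.cg.memLp_of_hasCompactSupport (BN.gradient_compact h.2)

lemma Tst.diff {φ : E n → ℝ} (h : Tst φ) : Differentiable ℝ φ :=
  h.1.differentiable (by simp)

lemma gradient_add {φ ψ : E n → ℝ} {x : E n} (h : DifferentiableAt ℝ φ x)
    (h' : DifferentiableAt ℝ ψ x) :
    gradient (fun x => φ x + ψ x) x = gradient φ x + gradient ψ x := by
  unfold gradient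
  rw [fderiv_fun_add h h', map_add]

lemma gradient_sub {φ ψ : E n → ℝ} {x : E n} (h : DifferentiableAt ℝ φ x)
    (h' : DifferentiableAt ℝ ψ x) :
    gradient (fun x => φ x - ψ x) x = gradient φ x - gradient ψ x := by
  unfold gradient
  rw [fderiv_fun_sub h h', map_sub]

lemma gradient_smul {φ : E n → ℝ} {x : E n} (c : ℝ) (h : DifferentiableAt ℝ φ x) :
    gradient (fun x => c * φ x) x = c • gradient φ x := by
  unfold gradient
  rw [fderiv_const_mul h]
  simp

lemma gradient_mul {φ ψ : E n → ℝ} {x : E n} (h : DifferentiableAt ℝ φ x)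
    (h' : DifferentiableAt ℝ ψ x) :
    gradient (fun x => φ x * ψ x) x = φ x • gradient ψ x + ψ x • gradient φ x := by
  unfold gradient
  rw [fderiv_fun_mul h h']
  simp

lemma gradient_trans (φ : E n → ℝ) (y x : E n) :
    gradient (fun x => φ (x + y)) x = gradient φ (x + y) := by
  unfold gradient
  rw [fderiv_comp_add_right]

lemma Tst.add {φ ψ : E n → ℝ} (h : Tst φ) (h' : Tst ψ) : Tst (fun x => φ x + ψ x) :=
  ⟨h.1.add h'.1, h.2.add h'.2⟩

lemma Tst.sub {φ ψ : E n → ℝ} (h : Tst φ) (h' : Tst ψ) : Tst (fun x => φ x - ψ x) :=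
  ⟨h.1.sub h'.1, h.2.sub h'.2⟩

lemma Tst.smul {φ : E n → ℝ} (c : ℝ) (h : Tst φ) : Tst (fun x => c * φ x) :=
  ⟨contDiff_const.mul h.1, h.2.mul_left⟩

lemma Tst.mul {φ ψ : E n → ℝ} (h : Tst φ) (h' : Tst ψ) : Tst (fun x => φ x * ψ x) :=
  ⟨h.1.mul h'.1, h.2.mul_right⟩

lemma Tst.trans {φ : E n → ℝ} (h : Tst φ) (y : E n) : Tst (fun x => φ (x + y)) := by
  refine ⟨h.1.comp (contDiff_id.add contDiff_const), ?_⟩
  exact h.2.comp_homeomorph (Homeomorph.addRight y)

lemma Tst.isH1 {φ : E n → ℝ} (h : Tst φ) : IsH1 φ (gradient φ) :=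
  ⟨h.memLp 2, h.memLp_grad 2, fun _ => φ, fun _ => h, by simp, by simp⟩

lemma IsH1.add {u v : E n → ℝ} {G H : E n → E n} (h : IsH1 u G) (h' : IsH1 v H) :
    IsH1 (fun x => u x + v x) (fun x => G x + H x) := by
  obtain ⟨φ, hφ, h1, h2⟩ := h.app
  obtain ⟨ψ, hψ, h3, h4⟩ := h'.app
  refine ⟨h.mu.add h'.mu, h.mG.add h'.mG, fun k x => φ k x + ψ k x,
    fun k => (hφ k).add (hψ k), ?_, ?_⟩
  · exact LTo.add (μ := volume) h1 h3 (fun k => (hφ k).memLp 2) h.mu (fun k => (hψ k).memLp 2)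
      h'.mu
  · have := LTo.add (μ := volume) h2 h4 (fun k => (hφ k).memLp_grad 2) h.mG
      (fun k => (hψ k).memLp_grad 2) h'.mG
    refine this.congr fun k => ?_
    congr 1
    funext x
    rw [gradient_add ((hφ k).diff x) ((hψ k).diff x)]

lemma IsH1.sub {u v : E n → ℝ} {G H : E n → E n} (h : IsH1 u G) (h' : IsH1 v H) :
    IsH1 (fun x => u x - v x) (fun x => G x - H x) := by
  obtain ⟨φ, hφ, h1, h2⟩ := h.app
  obtain ⟨ψ, hψ, h3, h4⟩ := h'.app
  refine ⟨h.mu.sub h'.mu, h.mG.sub h'.mG, fun k x => φ k x - ψ k x,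
    fun k => (hφ k).sub (hψ k), ?_, ?_⟩
  · exact LTo.sub (μ := volume) h1 h3 (fun k => (hφ k).memLp 2) h.mu (fun k => (hψ k).memLp 2)
      h'.mu
  · have := LTo.sub (μ := volume) h2 h4 (fun k => (hφ k).memLp_grad 2) h.mG
      (fun k => (hψ k).memLp_grad 2) h'.mG
    refine this.congr fun k => ?_
    congr 1
    funext x
    rw [gradient_sub ((hφ k).diff x) ((hψ k).diff x)]

lemma IsH1.smul {u : E n → ℝ} {G : E n → E n} (c : ℝ) (h : IsH1 u G) :
    IsH1 (fun x => c * u x) (fun x => c • G x) := by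
  obtain ⟨φ, hφ, h1, h2⟩ := h.app
  refine ⟨h.mu.const_mul c, h.mG.const_smul c, fun k x => c * φ k x,
    fun k => (hφ k).smul c, ?_, ?_⟩
  · exact LTo.smul (μ := volume) c h1 (fun k => (hφ k).memLp 2) h.mu
  · have := LTo.smul (μ := volume) c h2 (fun k => (hφ k).memLp_grad 2) h.mG
    refine this.congr fun k => ?_
    congr 1
    funext x
    rw [gradient_smul c ((hφ k).diff x)]

lemma IsH1.trans {u : E n → ℝ} {G : E n → E n} (h : IsH1 u G) (y : E n) :
    IsH1 (fun x => u (x + y)) (fun x => G (x + y)) := by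
  obtain ⟨φ, hφ, h1, h2⟩ := h.app
  have hp : MeasurePreserving (fun x : E n => x + y) volume volume :=
    measurePreserving_add_right volume y
  refine ⟨h.mu.comp_measurePreserving hp, h.mG.comp_measurePreserving hp,
    fun k x => φ k (x + y), fun k => (hφ k).trans y, ?_, ?_⟩
  · refine h1.congr fun k => ?_
    exact (eLpNorm_comp_measurePreserving (p := 2) (((hφ k).memLp 2).sub h.mu).1 hp).symm
  · refine h2.congr fun k => ?_
    have := (eLpNorm_comp_measurePreserving (p := 2) (((hφ k).memLp_grad 2).sub h.mG).1 hp).symm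
    refine this.trans ?_
    congr 1
    funext x
    simp only [gradient_trans]
    rfl

lemma IsH1.congr {u v : E n → ℝ} {G H : E n → E n} (h : IsH1 u G) (hu : u =ᵐ[volume] v)
    (hG : G =ᵐ[volume] H) : IsH1 v H := by
  obtain ⟨φ, hφ, h1, h2⟩ := h.app
  refine ⟨(memLp_congr_ae hu).1 h.mu, (memLp_congr_ae hG).1 h.mG, φ, hφ, ?_, ?_⟩
  · refine h1.congr fun k => eLpNorm_congr_ae ?_
    filter_upwards [hu] with x hx
    rw [hx]
  · refine h2.congr fun k => eLpNorm_congr_ae ?_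
    filter_upwards [hG] with x hx
    rw [hx]

/-- Passing inequalities between integrals from test functions to `H¹`. -/
lemma IsH1.transfer {r : ℝ} (hr : 0 < r) {Φ : ℝ → ℝ → ℝ} (hΦ : Continuous (Function.uncurry Φ))
    (hb : ∀ φ : E n → ℝ, Tst φ → ∫ x, |φ x| ^ r ≤ Φ (∫ x, ‖gradient φ x‖ ^ 2) (∫ x, φ x ^ 2))
    {u : E n → ℝ} {G : E n → E n} (h : IsH1 u G) :
    Integrable (fun x => |u x| ^ r) ∧
      ∫ x, |u x| ^ r ≤ Φ (∫ x, ‖G x‖ ^ 2) (∫ x, u x ^ 2) := by
  obtain ⟨φ, hφ, h1, h2⟩ := h.app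
  have hL1 : LTo volume φ u := h1
  have hL2 : LTo volume (fun k => gradient (φ k)) G := h2
  obtain ⟨ns, hns, hae⟩ := hL1.ae (fun k => (hφ k).memLp 2) h.mu
  have c1 := (hL1.comp hns.tendsto_atTop).sq (fun k => (hφ _).memLp 2) h.mu
  have c2 := (hL2.comp hns.tendsto_atTop).sq (fun k => (hφ _).memLp_grad 2) h.mG
  simp only [Real.norm_eq_abs, sq_abs] at c1
  have c3 : Tendsto (fun k => Φ (∫ x, ‖gradient (φ (ns k)) x‖ ^ 2) (∫ x, φ (ns k) x ^ 2)) atTop
      (𝓝 (Φ (∫ x, ‖G x‖ ^ 2) (∫ x, u x ^ 2))) := by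
    have := (hΦ.tendsto (∫ x, ‖G x‖ ^ 2, ∫ x, u x ^ 2)).comp (c2.prodMk_nhds c1)
    exact this
  have hint : ∀ k, Integrable (fun x => |φ k x| ^ r) volume := by
    intro k
    apply Continuous.integrable_of_hasCompactSupport
    · exact (hφ k).1.continuous.abs.rpow_const fun x => Or.inr hr.le
    · exact ((hφ k).2.comp_left (g := fun t => |t| ^ r) (by simp [Real.zero_rpow hr.ne']))
  have hmu : AEStronglyMeasurable (fun x => |u x| ^ r) volume := by
    have := (h.mu.1.norm.aemeasurable.pow_const r).aestronglyMeasurable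
    exact this
  have f1 : ∫⁻ x, ENNReal.ofReal (|u x| ^ r) ≤
      liminf (fun k => ∫⁻ x, ENNReal.ofReal (|φ (ns k) x| ^ r)) atTop := by
    have e : ∀ᵐ x ∂(volume : Measure (E n)), ENNReal.ofReal (|u x| ^ r) =
        liminf (fun k => ENNReal.ofReal (|φ (ns k) x| ^ r)) atTop := by
      filter_upwards [hae] with x hx
      have h3 : Tendsto (fun k => |φ (ns k) x| ^ r) atTop (𝓝 (|u x| ^ r)) :=
        hx.abs.rpow_const (Or.inr hr.le)
      exact ((ENNReal.continuous_ofReal.tendsto _).comp h3).liminf_eq.symm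
    rw [lintegral_congr_ae e]
    apply lintegral_liminf_le
    intro k
    exact (((hφ (ns k)).1.continuous.abs.rpow_const fun x => Or.inr hr.le).measurable).ennreal_ofReal
  have f2 : ∀ k, ∫⁻ x, ENNReal.ofReal (|φ (ns k) x| ^ r) =
      ENNReal.ofReal (∫ x, |φ (ns k) x| ^ r) := fun k =>
    (ofReal_integral_eq_lintegral_ofReal (hint _)
      (Eventually.of_forall fun x => Real.rpow_nonneg (abs_nonneg _) _)).symm
  have f3 : ∫⁻ x, ENNReal.ofReal (|u x| ^ r) ≤
      ENNReal.ofReal (Φ (∫ x, ‖G x‖ ^ 2) (∫ x, u x ^ 2)) := by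
    refine f1.trans ?_
    simp_rw [f2]
    rw [← ((ENNReal.continuous_ofReal.tendsto _).comp c3).liminf_eq]
    refine liminf_le_liminf (Eventually.of_forall fun k => ?_)
    exact ENNReal.ofReal_le_ofReal (hb _ (hφ _))
  have hi : Integrable (fun x => |u x| ^ r) volume := by
    refine ⟨hmu, ?_⟩
    rw [hasFiniteIntegral_iff_ofReal (Eventually.of_forall fun x =>
      Real.rpow_nonneg (abs_nonneg _) _)]
    exact f3.trans_lt ENNReal.ofReal_lt_top
  refine ⟨hi, ?_⟩
  have h0 : 0 ≤ Φ (∫ x, ‖G x‖ ^ 2) (∫ x, u x ^ 2) := by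
    apply ge_of_tendsto' c3
    intro k
    exact (integral_nonneg fun x => Real.rpow_nonneg (abs_nonneg _) _).trans (hb _ (hφ _))
  rw [← ofReal_integral_eq_lintegral_ofReal hi (Eventually.of_forall fun x =>
    Real.rpow_nonneg (abs_nonneg _) _)] at f3
  exact (ENNReal.ofReal_le_ofReal_iff h0).1 f3

end Pool.Agent.R217.HS
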