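import Mathlib

set_option autoImplicit false
set_option linter.unusedSectionVars false

open MeasureTheory Filter Topology
open scoped ContDiff ENNReal NNReal RealInnerProductSpace

namespace Pool.Agent.R217.HS

/-! ### `L²` functions -/

section L2
variable {α : Type*} [MeasurableSpace α] {μ : Measure α}
  {F : Type*} [NormedAddCommGroup F] [InnerProductSpace ℝ F]

theorem inner_toLp {f g : α → F} (hf : MemLp f 2 μ) (hg : MemLp g 2 μ) :
    ⟪hf.toLp f, hg.toLp g⟫ = ∫ x, ⟪f x, g x⟫ ∂μ := by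
  rw [L2.inner_def]
  apply integral_congr_ae
  filter_upwards [hf.coeFn_toLp, hg.coeFn_toLp] with x h1 h2
  rw [h1, h2]

theorem norm_sq_toLp {f : α → F} (hf : MemLp f 2 μ) :
    ‖hf.toLp f‖ ^ 2 = ∫ x, ‖f x‖ ^ 2 ∂μ := by
  rw [← real_inner_self_eq_norm_sq, inner_toLp]
  simp only [real_inner_self_eq_norm_sq]

theorem integrable_inner' {f g : α → F} (hf : MemLp f 2 μ) (hg : MemLp g 2 μ) :
    Integrable (fun x => ⟪f x, g x⟫) μ := by
  have h := L2.integrable_inner (𝕜 := ℝ) (hf.toLp f) (hg.toLp g)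
  refine h.congr ?_
  filter_upwards [hf.coeFn_toLp, hg.coeFn_toLp] with x h1 h2
  rw [h1, h2]

theorem integrable_sq {f : α → F} (hf : MemLp f 2 μ) : Integrable (fun x => ‖f x‖ ^ 2) μ := by
  have := integrable_inner' hf hf
  simpa only [real_inner_self_eq_norm_sq] using this

/-- Convergence in `L²`. -/
def LTo (μ : Measure α) (f : ℕ → α → F) (g : α → F) : Prop :=
  Tendsto (fun n => eLpNorm (fun x => f n x - g x) 2 μ) atTop (𝓝 0)

theorem LTo.toLp {f : ℕ → α → F} {g : α → F} (h : LTo μ f g) (hf : ∀ n, MemLp (f n) 2 μ)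
    (hg : MemLp g 2 μ) : Tendsto (fun n => (hf n).toLp (f n)) atTop (𝓝 (hg.toLp g)) := by
  rw [Lp.tendsto_Lp_iff_tendsto_eLpNorm'']
  exact h

theorem lTo_iff {f : ℕ → α → F} {g : α → F} (hf : ∀ n, MemLp (f n) 2 μ)
    (hg : MemLp g 2 μ) :
    LTo μ f g ↔ Tendsto (fun n => (hf n).toLp (f n)) atTop (𝓝 (hg.toLp g)) := by
  rw [Lp.tendsto_Lp_iff_tendsto_eLpNorm'']
  rfl

theorem LTo.sq {f : ℕ → α → F} {g : α → F} (h : LTo μ f g) (hf : ∀ n, MemLp (f n) 2 μ)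
    (hg : MemLp g 2 μ) :
    Tendsto (fun n => ∫ x, ‖f n x‖ ^ 2 ∂μ) atTop (𝓝 (∫ x, ‖g x‖ ^ 2 ∂μ)) := by
  have h1 := ((h.toLp hf hg).norm).pow 2
  simpa only [norm_sq_toLp] using h1

theorem LTo.inner {f f' : ℕ → α → F} {g g' : α → F} (h : LTo μ f g) (h' : LTo μ f' g')
    (hf : ∀ n, MemLp (f n) 2 μ) (hg : MemLp g 2 μ)
    (hf' : ∀ n, MemLp (f' n) 2 μ) (hg' : MemLp g' 2 μ) :
    Tendsto (fun n => ∫ x, ⟪f n x, f' n x⟫ ∂μ) atTop (𝓝 (∫ x, ⟪g x, g' x⟫ ∂μ)) := by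
  have h1 := (h.toLp hf hg).inner (𝕜 := ℝ) (h'.toLp hf' hg')
  simpa only [inner_toLp] using h1

theorem eLpNorm_two_of_sq {f : α → F} (hf : MemLp f 2 μ) :
    eLpNorm f 2 μ = ENNReal.ofReal (Real.sqrt (∫ x, ‖f x‖ ^ 2 ∂μ)) := by
  rw [hf.eLpNorm_eq_integral_rpow_norm (by norm_num) (by norm_num)]
  congr 1
  simp only [ENNReal.toReal_ofNat, Real.rpow_ofNat]
  rw [Real.sqrt_eq_rpow]; norm_num

theorem lTo_of_sq {f : ℕ → α → F} {g : α → F} (hf : ∀ n, MemLp (f n) 2 μ)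
    (hg : MemLp g 2 μ) (h : Tendsto (fun n => ∫ x, ‖f n x - g x‖ ^ 2 ∂μ) atTop (𝓝 0)) :
    LTo μ f g := by
  unfold LTo
  have h1 : ∀ n, eLpNorm (fun x => f n x - g x) 2 μ =
      ENNReal.ofReal (Real.sqrt (∫ x, ‖f n x - g x‖ ^ 2 ∂μ)) := fun n =>
    eLpNorm_two_of_sq ((hf n).sub hg)
  simp_rw [h1]
  have h2 := ENNReal.continuous_ofReal.tendsto _ |>.comp
    ((Real.continuous_sqrt.tendsto _).comp h)
  rw [Real.sqrt_zero, ENNReal.ofReal_zero] at h2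
  exact h2

theorem LTo.sub_sq {f : ℕ → α → F} {g : α → F} (h : LTo μ f g) (hf : ∀ n, MemLp (f n) 2 μ)
    (hg : MemLp g 2 μ) : Tendsto (fun n => ∫ x, ‖f n x - g x‖ ^ 2 ∂μ) atTop (𝓝 0) := by
  have h1 := (((h.toLp hf hg).sub_const (hg.toLp g)).norm).pow 2
  rw [sub_self, norm_zero, zero_pow two_ne_zero] at h1
  refine h1.congr fun n => ?_
  have h3 : (hf n).toLp (f n) - hg.toLp g = ((hf n).sub hg).toLp (f n - g) :=
    (MemLp.toLp_sub (hf n) hg).symm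
  rw [h3, norm_sq_toLp]
  rfl

theorem LTo.add {f f' : ℕ → α → F} {g g' : α → F} (h : LTo μ f g) (h' : LTo μ f' g')
    (hf : ∀ n, MemLp (f n) 2 μ) (hg : MemLp g 2 μ)
    (hf' : ∀ n, MemLp (f' n) 2 μ) (hg' : MemLp g' 2 μ) :
    LTo μ (fun n x => f n x + f' n x) (fun x => g x + g' x) := by
  have h1 := (h.toLp hf hg).add (h'.toLp hf' hg')
  exact (lTo_iff (f := fun n x => f n x + f' n x) (g := fun x => g x + g' x)
    (fun n => (hf n).add (hf' n)) (hg.add hg')).2 h1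

theorem LTo.sub {f f' : ℕ → α → F} {g g' : α → F} (h : LTo μ f g) (h' : LTo μ f' g')
    (hf : ∀ n, MemLp (f n) 2 μ) (hg : MemLp g 2 μ)
    (hf' : ∀ n, MemLp (f' n) 2 μ) (hg' : MemLp g' 2 μ) :
    LTo μ (fun n x => f n x - f' n x) (fun x => g x - g' x) := by
  have h1 := (h.toLp hf hg).sub (h'.toLp hf' hg')
  exact (lTo_iff (f := fun n x => f n x - f' n x) (g := fun x => g x - g' x)
    (fun n => (hf n).sub (hf' n)) (hg.sub hg')).2 h1

theorem LTo.smul {f : ℕ → α → F} {g : α → F} (c : ℝ) (h : LTo μ f g)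
    (hf : ∀ n, MemLp (f n) 2 μ) (hg : MemLp g 2 μ) :
    LTo μ (fun n x => c • f n x) (fun x => c • g x) := by
  have h1 := (h.toLp hf hg).const_smul c
  exact (lTo_iff (f := fun n x => c • f n x) (g := fun x => c • g x)
    (fun n => (hf n).const_smul c) (hg.const_smul c)).2 h1

/-- An almost everywhere convergent subsequence. -/
theorem LTo.ae {f : ℕ → α → F} {g : α → F} (h : LTo μ f g) (hf : ∀ n, MemLp (f n) 2 μ)
    (hg : MemLp g 2 μ) : ∃ ns : ℕ → ℕ, StrictMono ns ∧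
      ∀ᵐ x ∂μ, Tendsto (fun k => f (ns k) x) atTop (𝓝 (g x)) := by
  have hT : TendstoInMeasure μ f atTop g :=
    tendstoInMeasure_of_tendsto_eLpNorm (p := 2) (by norm_num) (fun n => (hf n).1) hg.1 h
  exact hT.exists_seq_tendsto_ae

theorem LTo.comp {f : ℕ → α → F} {g : α → F} (h : LTo μ f g) {ns : ℕ → ℕ}
    (hns : Tendsto ns atTop atTop) : LTo μ (fun k => f (ns k)) g :=
  (show Tendsto (fun n => eLpNorm (fun x => f n x - g x) 2 μ) atTop (𝓝 0) from h).comp hns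

end L2

/-! ### weak compactness in Hilbert spaces -/

theorem exists_weak_subseq {X : Type*} [NormedAddCommGroup X] [InnerProductSpace ℝ X]
    [CompleteSpace X] [TopologicalSpace.SeparableSpace X] (y : ℕ → X) {R : ℝ}
    (hR : ∀ n, ‖y n‖ ≤ R) :
    ∃ (z : X) (ns : ℕ → ℕ), StrictMono ns ∧
      ∀ w, Tendsto (fun k => ⟪y (ns k), w⟫) atTop (𝓝 ⟪z, w⟫) := by
  have h := WeakDual.isSeqCompact_closedBall ℝ X (0 : StrongDual ℝ X) R
  have hx : ∀ n, StrongDual.toWeakDual (InnerProductSpace.toDual ℝ X (y n)) ∈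
      WeakDual.toStrongDual ⁻¹' Metric.closedBall (0 : StrongDual ℝ X) R := by
    intro n
    have := hR n
    simpa using this
  obtain ⟨f, _, ns, hns, hf⟩ := h hx
  refine ⟨(InnerProductSpace.toDual ℝ X).symm (WeakDual.toStrongDual f), ns, hns, fun w => ?_⟩
  have h2 := ((WeakBilin.eval_continuous _ w).tendsto f).comp hf
  rw [InnerProductSpace.toDual_symm_apply]
  exact h2

/-- Weak convergence against a dense set of vectors. -/
theorem tendsto_inner_of_approx {X : Type*} [NormedAddCommGroup X] [InnerProductSpace ℝ X]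
    {y : ℕ → X} {R : ℝ} (hR : ∀ n, ‖y n‖ ≤ R) {w : X} {ws : ℕ → X}
    (hw : Tendsto ws atTop (𝓝 w))
    (h : ∀ j, Tendsto (fun k => ⟪y k, ws j⟫) atTop (𝓝 0)) :
    Tendsto (fun k => ⟪y k, w⟫) atTop (𝓝 0) := by
  have hR0 : 0 ≤ R := (norm_nonneg _).trans (hR 0)
  rw [Metric.tendsto_atTop]
  intro ε hε
  obtain ⟨j, hj⟩ := ((tendsto_iff_norm_sub_tendsto_zero.1 hw).eventually
    (gt_mem_nhds (show (0:ℝ) < ε / (2 * (R + 1)) by positivity))).exists
  obtain ⟨K, hK⟩ := Metric.tendsto_atTop.1 (h j) (ε / 2) (by positivity)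
  refine ⟨K, fun k hk => ?_⟩
  have h1 := hK k hk
  rw [Real.dist_eq, sub_zero] at h1 ⊢
  have h2 : ⟪y k, w⟫ = ⟪y k, ws j⟫ - ⟪y k, ws j - w⟫ := by
    rw [inner_sub_right]; ring
  have h3 : |⟪y k, ws j - w⟫| ≤ R * (ε / (2 * (R + 1))) := by
    refine (abs_real_inner_le_norm _ _).trans ?_
    exact mul_le_mul (hR k) hj.le (norm_nonneg _) hR0
  have h4 : R * (ε / (2 * (R + 1))) < ε / 2 := by
    rw [mul_div_assoc', div_lt_div_iff₀ (by positivity) (by positivity)]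
    nlinarith
  rw [h2]
  have := abs_sub (⟪y k, ws j⟫ : ℝ) (⟪y k, ws j - w⟫ : ℝ)
  linarith

end Pool.Agent.R217.HS
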