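import Pool.Agent.R217.HS.Sob
import Pool.Agent.R217.HS.Cpt

set_option autoImplicit false
set_option linter.unusedSectionVars false

open MeasureTheory Filter Topology
open scoped ContDiff ENNReal NNReal RealInnerProductSpace

namespace Pool.Agent.R217.HS

open Pool.Agent.R217.BN (E cexp sobS)

variable {n : ℕ}

lemma eLpNorm_le_mul' {F F' : Type*} [NormedAddCommGroup F] [NormedAddCommGroup F']
    {f : E n → F} {g : E n → F'} {C : ℝ} (h : ∀ x, ‖f x‖ ≤ C * ‖g x‖) (p : ℝ≥0∞) :
    eLpNorm f p volume ≤ ENNReal.ofReal C * eLpNorm g p volume :=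
  eLpNorm_le_mul_eLpNorm_of_ae_le_mul (Eventually.of_forall h) p

/-- Multiplication by a bounded smooth function with bounded gradient. -/
lemma IsH1.mulW {om : E n → ℝ} (hom : ContDiff ℝ ∞ om) {C : ℝ} (hb : ∀ x, |om x| ≤ C)
    (hb' : ∀ x, ‖gradient om x‖ ≤ C) {u : E n → ℝ} {G : E n → E n} (h : IsH1 u G) :
    IsH1 (fun x => om x * u x) (fun x => om x • G x + u x • gradient om x) := by
  obtain ⟨φ, hφ, h1, h2⟩ := h.app
  have hcom := hom.continuous
  have hgom := BN.gradient_continuous hom
  have hT : ∀ k, Tst (fun x => om x * φ k x) := fun k => ⟨hom.mul (hφ k).1, (hφ k).2.mul_left⟩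
  have m1 : MemLp (fun x => om x * u x) 2 volume := by
    refine h.mu.of_le_mul (c := C) (hcom.aestronglyMeasurable.mul h.mu.1)
      (Eventually.of_forall fun x => ?_)
    rw [norm_mul, Real.norm_eq_abs]
    gcongr
    exact hb x
  have m2 : MemLp (fun x => om x • G x) 2 volume := by
    refine h.mG.of_le_mul (c := C) (hcom.aestronglyMeasurable.smul h.mG.1)
      (Eventually.of_forall fun x => ?_)
    rw [norm_smul, Real.norm_eq_abs]
    gcongr
    exact hb x
  have m3 : MemLp (fun x => u x • gradient om x) 2 volume := by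
    refine h.mu.of_le_mul (c := C) (h.mu.1.smul hgom.aestronglyMeasurable)
      (Eventually.of_forall fun x => ?_)
    rw [norm_smul, mul_comm]
    gcongr
    exact hb' x
  refine ⟨m1, m2.add m3, fun k x => om x * φ k x, hT, ?_, ?_⟩
  · have h3 : Tendsto (fun k => ENNReal.ofReal C * eLpNorm (fun x => φ k x - u x) 2 volume) atTop
        (𝓝 0) := by
      have := ENNReal.Tendsto.const_mul h1 (Or.inr (ENNReal.ofReal_ne_top (r := C)))
      simpa using this
    refine tendsto_of_tendsto_of_tendsto_of_le_of_le tendsto_const_nhds h3 (fun k => zero_le)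
      fun k => ?_
    apply eLpNorm_le_mul'
    intro x
    rw [← mul_sub, norm_mul, Real.norm_eq_abs]
    gcongr
    exact hb x
  · have h3 : Tendsto (fun k => ENNReal.ofReal C * eLpNorm (fun x => gradient (φ k) x - G x) 2 volume +
        ENNReal.ofReal C * eLpNorm (fun x => φ k x - u x) 2 volume) atTop (𝓝 0) := by
      have a1 := ENNReal.Tendsto.const_mul h2 (Or.inr (ENNReal.ofReal_ne_top (r := C)))
      have a2 := ENNReal.Tendsto.const_mul h1 (Or.inr (ENNReal.ofReal_ne_top (r := C)))
      simpa using a1.add a2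
    refine tendsto_of_tendsto_of_tendsto_of_le_of_le tendsto_const_nhds h3 (fun k => zero_le)
      fun k => ?_
    have e : (fun x => gradient (fun x => om x * φ k x) x - (om x • G x + u x • gradient om x)) =
        (fun x => om x • (gradient (φ k) x - G x)) + fun x => (φ k x - u x) • gradient om x := by
      funext x
      rw [gradient_mul (hom.differentiable (by simp) x) ((hφ k).diff x)]
      simp only [Pi.add_apply, smul_sub, sub_smul]
      abel
    dsimp only
    rw [e]
    have n1 : AEStronglyMeasurable (fun x => om x • (gradient (φ k) x - G x)) volume :=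
      hcom.aestronglyMeasurable.smul ((hφ k).cg.aestronglyMeasurable.sub h.mG.1)
    have n2 : AEStronglyMeasurable (fun x => (φ k x - u x) • gradient om x) volume :=
      ((hφ k).1.continuous.aestronglyMeasurable.sub h.mu.1).smul hgom.aestronglyMeasurable
    refine (eLpNorm_add_le n1 n2 (by norm_num)).trans ?_
    apply add_le_add
    · apply eLpNorm_le_mul'
      intro x
      rw [norm_smul, Real.norm_eq_abs]
      gcongr
      exact hb x
    · apply eLpNorm_le_mul'
      intro x
      rw [norm_smul, mul_comm]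
      gcongr
      exact hb' x

/-- Multiplication by a test function. -/
lemma IsH1.mulT {χ : E n → ℝ} (hχ : Tst χ) {u : E n → ℝ} {G : E n → E n} (h : IsH1 u G) :
    IsH1 (fun x => χ x * u x) (fun x => χ x • G x + u x • gradient χ x) := by
  obtain ⟨C1, hC1⟩ := hχ.2.exists_bound_of_continuous hχ.1.continuous
  obtain ⟨C2, hC2⟩ := (BN.gradient_compact hχ.2).exists_bound_of_continuous hχ.cg
  refine h.mulW hχ.1 (C := max C1 C2) (fun x => ?_) (fun x => (hC2 x).trans (le_max_right _ _))
  rw [← Real.norm_eq_abs]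
  exact (hC1 x).trans (le_max_left _ _)

/-- Weak limits. -/
lemma IsH1.of_weak {u : ℕ → E n → ℝ} {G : ℕ → E n → E n} (h : ∀ k, IsH1 (u k) (G k))
    {v : E n → ℝ} {H : E n → E n} (hv : MemLp v 2 volume) (hH : MemLp H 2 volume)
    (w1 : ∀ w : E n → ℝ, MemLp w 2 volume →
        Tendsto (fun k => ∫ x, u k x * w x) atTop (𝓝 (∫ x, v x * w x)))
    (w2 : ∀ W : E n → E n, MemLp W 2 volume →
        Tendsto (fun k => ∫ x, ⟪G k x, W x⟫) atTop (𝓝 (∫ x, ⟪H x, W x⟫))) : IsH1 v H := by
  have hz : (WithLp.toLp 2 (hv.toLp v, hH.toLp H) : XX n) ∈ (TS n).topologicalClosure := by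
    apply weak_mem (y := fun k => (WithLp.toLp 2 ((h k).mu.toLp (u k), (h k).mG.toLp (G k)) : XX n))
      (fun k => (h _).mem)
    intro w
    have a1 := w1 (w.fst : E n → ℝ) (Lp.memLp _)
    have a2 := w2 (w.snd : E n → E n) (Lp.memLp _)
    have a3 := a1.add a2
    simp only [WithLp.prod_inner_apply]
    have e1 : ∀ (f : E n → ℝ) (hf : MemLp f 2 volume),
        (⟪hf.toLp f, w.fst⟫ : ℝ) = ∫ x, f x * w.fst x := by
      intro f hf
      rw [L2.inner_def]
      apply integral_congr_ae
      filter_upwards [hf.coeFn_toLp] with x hx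
      rw [hx, RCLike.inner_apply]
      simp only [conj_trivial]
      ring
    have e2 : ∀ (f : E n → E n) (hf : MemLp f 2 volume),
        (⟪hf.toLp f, w.snd⟫ : ℝ) = ∫ x, ⟪f x, w.snd x⟫ := by
      intro f hf
      rw [L2.inner_def]
      apply integral_congr_ae
      filter_upwards [hf.coeFn_toLp] with x hx
      rw [hx]
    have e3 : ∀ k, (⟪(h k).mu.toLp (u k), w.fst⟫ : ℝ) + ⟪(h k).mG.toLp (G k), w.snd⟫ =
        (∫ x, u k x * w.fst x) + ∫ x, ⟪G k x, w.snd x⟫ := fun k => by rw [e1, e2]
    have e4 : (⟪hv.toLp v, w.fst⟫ : ℝ) + ⟪hH.toLp H, w.snd⟫ =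
        (∫ x, v x * w.fst x) + ∫ x, ⟪H x, w.snd x⟫ := by rw [e1, e2]
    refine (tendsto_congr e3).2 ?_
    rw [← e4] at a3
    exact a3
  have hH' := isH1_of_mem hz
  exact hH'.congr hv.coeFn_toLp hH.coeFn_toLp

/-! ### dilations -/

lemma qmp_smul {c : ℝ} (hc : 0 < c) :
    Measure.QuasiMeasurePreserving (fun x : E n => c • x) volume volume := by
  refine ⟨measurable_const_smul c, ?_⟩
  rw [Measure.map_addHaar_smul _ hc.ne']
  exact Measure.smul_absolutelyContinuous

lemma memLp_dil {F : Type*} [NormedAddCommGroup F] {f : E n → F} (hf : MemLp f 2 volume)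
    {c : ℝ} (hc : 0 < c) : MemLp (fun x => f (c • x)) 2 volume := by
  have h1 : AEStronglyMeasurable (fun x => f (c • x)) volume :=
    hf.1.comp_quasiMeasurePreserving (qmp_smul hc)
  rw [memLp_two_iff_integrable_sq_norm h1]
  have h2 := (memLp_two_iff_integrable_sq_norm hf.1).1 hf
  exact h2.comp_smul hc.ne'

lemma LTo.dil {F : Type*} [NormedAddCommGroup F] [InnerProductSpace ℝ F] {f : ℕ → E n → F}
    {g : E n → F} (h : LTo volume f g) (hf : ∀ k, MemLp (f k) 2 volume) (hg : MemLp g 2 volume)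
    {c : ℝ} (hc : 0 < c) : LTo volume (fun k x => f k (c • x)) (fun x => g (c • x)) := by
  apply lTo_of_sq (fun k => memLp_dil (hf k) hc) (memLp_dil hg hc)
  have h1 := (h.sub_sq hf hg).const_mul ((c ^ n)⁻¹)
  rw [mul_zero] at h1
  refine h1.congr fun k => ?_
  exact (int_dil (fun x => ‖f k x - g x‖ ^ 2) hc).symm

lemma IsH1.dil {u : E n → ℝ} {G : E n → E n} (h : IsH1 u G) {c : ℝ} (hc : 0 < c) :
    IsH1 (fun x => u (c • x)) (fun x => c • G (c • x)) := by
  obtain ⟨φ, hφ, h1, h2⟩ := h.app
  have hL1 : LTo volume φ u := h1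
  have hL2 : LTo volume (fun k => gradient (φ k)) G := h2
  refine ⟨memLp_dil h.mu hc, (memLp_dil h.mG hc).const_smul c, fun k x => φ k (c • x),
    fun k => (hφ k).dil hc, ?_, ?_⟩
  · exact hL1.dil (fun k => (hφ k).memLp 2) h.mu hc
  · have := (hL2.dil (fun k => (hφ k).memLp_grad 2) h.mG hc).smul c
      (fun k => memLp_dil ((hφ k).memLp_grad 2) hc) (memLp_dil h.mG hc)
    refine this.congr fun k => ?_
    congr 1
    funext x
    rw [gradient_dil (hφ k).diff]

end Pool.Agent.R217.HS
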